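import Pool.Agent.H72R3.NC.Leaf

/-!
# The vector field is transcendental, the leaf is Zariski dense
-/

set_option autoImplicit false

namespace Pool.Agent.H72R3.NC

open Set Filter Topology MeasureTheory

/-- growth of the series along real positive rays -/
lemma ser_growth {w : ℕ → ℝ} (hw : ∀ n, |w n| ≤ 1) (hw0 : ∀ n, 0 < w n) {a b : ℝ} (ha : 0 < a)
    (hb : 0 < b) (M : ℕ) (C : ℝ) :
    ∀ᶠ s : ℝ in atTop, C * s ^ M < ‖ser w ((s : ℂ) * a, (s : ℂ) * b)‖ := by
  set c : ℝ := w (M + 1) / (Nat.factorial (eN (M + 1)) : ℝ) * (a ^ eP (M + 1) * b ^ eQ (M + 1))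
    with hc
  have hc0 : 0 < c := by
    have := hw0 (M + 1)
    positivity
  filter_upwards [eventually_ge_atTop 1, eventually_gt_atTop (C / c)] with s hs1 hs2
  have hs0 : 0 < s := by linarith
  set g : ℕ → ℝ := fun n => w n / (Nat.factorial (eN n) : ℝ) * ((s * a) ^ eP n * (s * b) ^ eQ n)
    with hg
  have hg0 : ∀ n, 0 ≤ g n := by
    intro n
    have := hw0 n
    positivity
  have heq : ser w ((s : ℂ) * a, (s : ℂ) * b) = ((∑' n, g n : ℝ) : ℂ) := by
    unfold ser
    rw [Complex.ofReal_tsum]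
    congr 1
    ext n
    rw [hg]
    push_cast
    ring
  have hsum : Summable g := by
    have h := summable_ser hw ((s : ℂ) * a, (s : ℂ) * b)
    rw [← Complex.summable_ofReal]
    convert h using 1
    ext n
    rw [hg]
    push_cast
    ring
  have h1 : g (M + 1) ≤ ∑' n, g n := hsum.le_tsum (M + 1) (fun n _ => hg0 n)
  have h2 : c * s ^ (eN (M + 1)) = g (M + 1) := by
    rw [hg, hc]
    simp only
    unfold eN
    rw [pow_add, mul_pow, mul_pow]
    ring
  have h3 : s ^ (M + 1) ≤ s ^ (eN (M + 1)) := pow_le_pow_right₀ hs1 (le_eN _)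
  rw [heq, Complex.norm_real, Real.norm_eq_abs, abs_of_nonneg (tsum_nonneg hg0)]
  have h4 : C < c * s := by
    rw [div_lt_iff₀ hc0] at hs2
    linarith
  have h5 : 0 < s ^ M := by positivity
  calc C * s ^ M < c * s * s ^ M := by gcongr
    _ = c * s ^ (M + 1) := by ring
    _ ≤ c * s ^ (eN (M + 1)) := by gcongr
    _ = g (M + 1) := h2
    _ ≤ _ := h1

/-- restriction of a polynomial to a ray -/
lemma ray {n : ℕ} (Q : MvPolynomial (Fin n) ℂ) (v : Fin n → ℂ) :
    ∃ q : Polynomial ℂ, ∀ s : ℂ, q.eval s = MvPolynomial.eval (fun i => s * v i) Q := by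
  refine ⟨MvPolynomial.aeval (fun i => Polynomial.X * Polynomial.C (v i)) Q, fun s => ?_⟩
  induction Q using MvPolynomial.induction_on with
  | C a => simp
  | add p q hp hq => rw [map_add, map_add, Polynomial.eval_add, hp, hq]
  | mul_X p i hp =>
    rw [map_mul, map_mul, Polynomial.eval_mul, hp, MvPolynomial.aeval_X, MvPolynomial.eval_X,
      Polynomial.eval_mul, Polynomial.eval_X, Polynomial.eval_C]

lemma poly_lower {q : Polynomial ℂ} (hq : q ≠ 0) :
    ∃ ε : ℝ, 0 < ε ∧ ∀ᶠ s : ℝ in atTop, ε ≤ ‖q.eval (s : ℂ)‖ := by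
  rcases lt_or_ge 0 q.degree with h | h
  · refine ⟨1, one_pos, ?_⟩
    have h1 : Tendsto (fun s : ℝ => ‖(s : ℂ)‖) atTop atTop := by
      simpa using tendsto_abs_atTop_atTop
    exact (q.tendsto_norm_atTop h h1).eventually_ge_atTop 1
  · rw [Polynomial.eq_C_of_degree_le_zero h] at hq ⊢
    have h0 : q.coeff 0 ≠ 0 := by
      intro h0
      rw [h0, map_zero] at hq
      exact hq rfl
    refine ⟨‖q.coeff 0‖, norm_pos_iff.2 h0, Eventually.of_forall fun s => ?_⟩
    rw [Polynomial.eval_C]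

lemma poly_upper (q : Polynomial ℂ) :
    ∃ (C : ℝ) (M : ℕ), 0 ≤ C ∧ ∀ s : ℝ, 1 ≤ s → ‖q.eval (s : ℂ)‖ ≤ C * s ^ M := by
  refine ⟨∑ i ∈ Finset.range (q.natDegree + 1), ‖q.coeff i‖, q.natDegree,
    Finset.sum_nonneg fun i _ => norm_nonneg _, fun s hs => ?_⟩
  rw [Polynomial.eval_eq_sum_range, Finset.sum_mul]
  refine (norm_sum_le _ _).trans (Finset.sum_le_sum fun i hi => ?_)
  rw [norm_mul, norm_pow, Complex.norm_real, Real.norm_of_nonneg (by linarith)]
  have : i ≤ q.natDegree := by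
    have := Finset.mem_range.1 hi
    omega
  gcongr

lemma not_multiple : ¬ IsHolomorphicMultipleOfPolynomial fld := by
  rintro ⟨h, P, _, hP⟩
  -- coordinates `0` and `1`
  obtain ⟨q0, hq0⟩ := ray (P 0) ![0, 1, 1]
  obtain ⟨q1, hq1⟩ := ray (P 1) ![0, 1, 1]
  have key : ∀ s : ℂ, ser wG (s * 1, s * 1) * q1.eval s = s * q0.eval s := by
    intro s
    have h0 := hP !₂[0, s, s] 0
    have h1 := hP !₂[0, s, s] 1
    have e : (fun i => s * (![0, 1, 1] : Fin 3 → ℂ) i) = fun j => (!₂[0, s, s] : Aff 3) j := by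
      ext i
      fin_cases i <;> simp
    rw [← e] at h0 h1
    rw [← hq0] at h0
    rw [← hq1] at h1
    have e0 : fld !₂[0, s, s] 0 = ser wG (s, s) := rfl
    have e1 : fld !₂[0, s, s] 1 = s := rfl
    rw [e0] at h0
    rw [e1] at h1
    rw [mul_one]
    calc ser wG (s, s) * q1.eval s = (h !₂[0, s, s] * q1.eval s) * q0.eval s := by rw [h0]; ring
      _ = _ := by rw [← h1]
  have hne : q1 ≠ 0 := by
    rintro rfl
    have h1 := hP !₂[0, 1, 1] 1
    have e : (fun i => (1 : ℂ) * (![0, 1, 1] : Fin 3 → ℂ) i) = fun j => (!₂[0, 1, 1] : Aff 3) j := by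
      ext i
      fin_cases i <;> simp
    rw [← e, ← hq1] at h1
    have e1 : fld !₂[0, 1, 1] 1 = 1 := rfl
    rw [e1] at h1
    simp at h1
  obtain ⟨ε, hε, hlow⟩ := poly_lower hne
  obtain ⟨C, M, hC, hup⟩ := poly_upper q0
  have hg := ser_growth wG_le (fun n => by unfold wG; have := dlt_pos; positivity) one_pos one_pos
    (M + 1) (C / ε)
  obtain ⟨s, h1, h2, h3⟩ := ((eventually_ge_atTop (1 : ℝ)).and (hlow.and hg)).exists
  have hk := congrArg norm (key s)
  rw [norm_mul, norm_mul, Complex.norm_real, Real.norm_of_nonneg (by linarith)] at hk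
  have h4 := hup s h1
  push_cast at h3
  have hs0 : 0 < s := by linarith
  have : C * s ^ (M + 1) < ‖ser wG ((s : ℂ) * 1, (s : ℂ) * 1)‖ * ‖q1.eval (s : ℂ)‖ := by
    calc C * s ^ (M + 1) = C / ε * s ^ (M + 1) * ε := by field_simp
      _ < ‖ser wG ((s : ℂ) * 1, (s : ℂ) * 1)‖ * ε := by gcongr
      _ ≤ _ := by gcongr
  rw [hk] at this
  have h5 : s * ‖q0.eval (s : ℂ)‖ ≤ C * s ^ (M + 1) := by
    calc s * ‖q0.eval (s : ℂ)‖ ≤ s * (C * s ^ M) := by gcongr
      _ = _ := by ring
  linarith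

/-- A polynomial vanishing on the leaf vanishes on the graph of `f`. -/
lemma graph_of_leaf (P : MvPolynomial (Fin 3) ℂ)
    (hP : ∀ t, MvPolynomial.eval (fun j => curve t j) P = 0) (x y : ℂ) (hx : x ≠ 0) :
    MvPolynomial.eval ![ser wF (x, y), x, y] P = 0 := by
  set g : ℂ → ℂ := fun y => MvPolynomial.eval ![ser wF (x, y), x, y] P with hg
  have hgd : Differentiable ℂ g := by
    have h1 : Differentiable ℂ fun y => ser wF (x, y) :=
      (differentiable_ser wF_le).comp ((differentiable_const x).prodMk differentiable_id)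
    have h2 : ∀ Q : MvPolynomial (Fin 3) ℂ,
        Differentiable ℂ fun y => MvPolynomial.eval ![ser wF (x, y), x, y] Q := by
      intro Q
      induction Q using MvPolynomial.induction_on with
      | C a => simp
      | add p q hp hq =>
        simp only [map_add]
        exact hp.add hq
      | mul_X p i hp =>
        have : Differentiable ℂ fun y => (![ser wF (x, y), x, y] : Fin 3 → ℂ) i := by
          fin_cases i
          · exact h1
          · exact differentiable_const _
          · exact differentiable_id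
        simp only [map_mul, MvPolynomial.eval_X]
        exact hp.mul this
    exact h2 P
  obtain ⟨t₀, ht₀⟩ : ∃ t, Complex.exp t = x := ⟨Complex.log x, Complex.exp_log hx⟩
  -- the points
  set pt : ℕ → ℂ := fun n => Complex.exp (-(√2 : ℝ) * (t₀ + n * (2 * Real.pi * Complex.I))) with hpt
  have hz : ∀ n, g (pt n) = 0 := by
    intro n
    have h := hP (t₀ + n * (2 * Real.pi * Complex.I))
    have e : (fun j => curve (t₀ + n * (2 * Real.pi * Complex.I)) j) =
        ![ser wF (x, pt n), x, pt n] := by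
      have ee : Complex.exp (t₀ + n * (2 * Real.pi * Complex.I)) = x := by
        rw [Complex.exp_add, Complex.exp_nat_mul_two_pi_mul_I, mul_one, ht₀]
      ext j
      fin_cases j
      · show ser wF (_, _) = _
        rw [ee]
        rfl
      · exact ee
      · rfl
    rw [e] at h
    exact h
  have hinj : Function.Injective pt := by
    intro m n hmn
    obtain ⟨k, hk⟩ := Complex.exp_eq_exp_iff_exists_int.1 hmn
    have hI : (2 * Real.pi * Complex.I : ℂ) ≠ 0 := Complex.two_pi_I_ne_zero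
    have h2 : (-(√2 : ℝ) : ℂ) * ((m : ℂ) - n) = k := by
      have h3 : (-(√2 : ℝ) : ℂ) * ((m : ℂ) - n) * (2 * Real.pi * Complex.I) =
          k * (2 * Real.pi * Complex.I) := by
        linear_combination hk
      exact mul_right_cancel₀ hI h3
    have h4 : -√2 * ((m : ℝ) - n) = k := by exact_mod_cast h2
    by_contra hne
    have hne' : ((m : ℝ) - n) ≠ 0 := by
      rw [sub_ne_zero]
      exact_mod_cast hne
    have : √2 = ((-k / ((m : ℚ) - n) : ℚ) : ℝ) := by
      push_cast
      field_simp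
      linarith
    exact irrational_sqrt_two ⟨_, this.symm⟩
  set K : Set ℂ := Metric.closedBall 0 (Real.exp (-√2 * t₀.re)) with hK
  have hsub : range pt ⊆ K := by
    rintro _ ⟨n, rfl⟩
    rw [hK, mem_closedBall_zero_iff, hpt]
    simp only
    rw [Complex.norm_exp]
    apply le_of_eq
    congr 1
    simp
  obtain ⟨y₀, _, hacc⟩ := (infinite_range_of_injective hinj).exists_accPt_of_subset_isCompact
    (isCompact_closedBall 0 _) hsub
  have hfreq : ∃ᶠ z in 𝓝[≠] y₀, g z = 0 := by
    rw [accPt_iff_frequently_nhdsNE] at hacc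
    exact hacc.mono (by rintro z ⟨n, rfl⟩; exact hz n)
  have han : AnalyticOnNhd ℂ g univ := fun z _ => hgd.analyticAt z
  exact han.eqOn_zero_of_preconnected_of_frequently_eq_zero isPreconnected_univ (mem_univ y₀)
    hfreq (mem_univ y)

lemma zariski_dense (P : MvPolynomial (Fin 3) ℂ)
    (hP : ∀ t, MvPolynomial.eval (fun j => curve t j) P = 0) : P = 0 := by
  by_contra hP0
  set A := MvPolynomial.finSuccEquiv ℂ 2 P with hA
  have hA0 : A ≠ 0 := by
    rw [hA]
    intro h
    exact hP0 ((map_eq_zero_iff _ (MvPolynomial.finSuccEquiv ℂ 2).injective).1 h)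
  have hlead : A.leadingCoeff ≠ 0 := Polynomial.leadingCoeff_ne_zero.2 hA0
  set N := A.natDegree with hN
  -- a real positive point where the leading coefficient does not vanish
  obtain ⟨v, hv, hvne⟩ : ∃ v : Fin 2 → ℝ, (∀ i, 0 < v i) ∧
      MvPolynomial.eval (fun i => (v i : ℂ)) A.leadingCoeff ≠ 0 := by
    by_contra hcon
    push Not at hcon
    apply hlead
    apply MvPolynomial.funext_set (fun _ => (fun r : ℝ => (r : ℂ)) '' Ioi 0)
    · intro _
      exact (Ioi_infinite (0 : ℝ)).image Complex.ofReal_injective.injOn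
    · intro x hx
      rw [map_zero]
      choose w hw hwx using fun i => hx i (mem_univ i)
      have : x = fun i => ((w i : ℝ) : ℂ) := by
        ext i
        exact (hwx i).symm
      rw [this]
      exact hcon w hw
  choose q hq using fun i => ray (A.coeff i) (fun i => (v i : ℂ))
  have hqN : q N ≠ 0 := by
    intro h0
    apply hvne
    have := hq N 1
    rw [h0, Polynomial.eval_zero] at this
    simp only [one_mul] at this
    exact this.symm
  -- the polynomial identity along the ray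
  set F : ℝ → ℂ := fun s => ser wF ((s : ℂ) * v 0, (s : ℂ) * v 1) with hF
  have hid : ∀ s : ℝ, 0 < s → ∑ i ∈ Finset.range (N + 1), (q i).eval (s : ℂ) * F s ^ i = 0 := by
    intro s hs
    have hx : (s : ℂ) * v 0 ≠ 0 := by
      have h1 : (s : ℂ) ≠ 0 := by exact_mod_cast hs.ne'
      have h2 : ((v 0 : ℝ) : ℂ) ≠ 0 := by exact_mod_cast (hv 0).ne'
      exact mul_ne_zero h1 h2
    have h := graph_of_leaf P hP ((s : ℂ) * v 0) ((s : ℂ) * v 1) hx
    have e : (![ser wF ((s : ℂ) * v 0, (s : ℂ) * v 1), (s : ℂ) * v 0, (s : ℂ) * v 1] : Fin 3 → ℂ) =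
        Fin.cons (F s) (fun i : Fin 2 => (s : ℂ) * v i) := by
      ext i
      fin_cases i <;> rfl
    rw [e, MvPolynomial.eval_eq_eval_mv_eval', ← hA] at h
    rw [Polynomial.eval_map, Polynomial.eval₂_eq_sum_range] at h
    rw [← h]
    refine Finset.sum_congr rfl fun i _ => ?_
    rw [hq i]
  -- bounds
  obtain ⟨ε, hε, hlow⟩ := poly_lower hqN
  choose C M hC hup using fun i => poly_upper (q i)
  set CC := ∑ i ∈ Finset.range N, C i with hCC
  set MM := ∑ i ∈ Finset.range N, M i with hMM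
  have hCC0 : 0 ≤ CC := Finset.sum_nonneg fun i _ => hC i
  have hg1 := ser_growth wF_le (fun n => one_pos) (hv 0) (hv 1) MM (CC / ε)
  have hg2 := ser_growth wF_le (fun n => one_pos) (hv 0) (hv 1) 0 1
  obtain ⟨s, h1, h2, h3, h4⟩ := ((eventually_ge_atTop (1 : ℝ)).and
    (hlow.and (hg1.and hg2))).exists
  have hF1 : 1 ≤ ‖F s‖ := by
    rw [hF]
    simp only [pow_zero, mul_one] at h4
    exact h4.le
  have hs0 : 0 < s := by linarith
  have h5 := hid s hs0
  rw [Finset.sum_range_succ] at h5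
  have h6 : ‖(q N).eval (s : ℂ) * F s ^ N‖ ≤ CC * s ^ MM * ‖F s‖ ^ (N - 1) := by
    have h7 : (q N).eval (s : ℂ) * F s ^ N =
        -∑ i ∈ Finset.range N, (q i).eval (s : ℂ) * F s ^ i := by
      linear_combination h5
    rw [h7, norm_neg, hCC, Finset.sum_mul, Finset.sum_mul]
    refine (norm_sum_le _ _).trans (Finset.sum_le_sum fun i hi => ?_)
    rw [norm_mul, norm_pow]
    have hi' := Finset.mem_range.1 hi
    have e1 : ‖(q i).eval (s : ℂ)‖ ≤ C i * s ^ MM := by
      refine (hup i s h1).trans ?_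
      have : M i ≤ MM := Finset.single_le_sum (f := M) (fun j _ => Nat.zero_le _) hi
      have hCi := hC i
      gcongr
    have e2 : ‖F s‖ ^ i ≤ ‖F s‖ ^ (N - 1) := pow_le_pow_right₀ hF1 (by omega)
    have hCi := hC i
    gcongr
  rw [norm_mul, norm_pow] at h6
  rcases Nat.eq_zero_or_pos N with hN0 | hN0
  · -- `N = 0`
    have : CC = 0 := by rw [hCC, hN0]; simp
    rw [this, hN0] at h6
    simp only [pow_zero, mul_one, zero_mul] at h6
    rw [hN0] at h2
    linarith
  · obtain ⟨N', hN'⟩ : ∃ N', N = N' + 1 := ⟨N - 1, by omega⟩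
    rw [hN'] at h6
    simp only [Nat.add_sub_cancel] at h6
    rw [pow_succ, ← hN'] at h6
    have hFp : 0 < ‖F s‖ ^ N' := by positivity
    have h8 : ‖(q N).eval (s : ℂ)‖ * ‖F s‖ ≤ CC * s ^ MM := by
      have : (‖(q N).eval (s : ℂ)‖ * ‖F s‖) * ‖F s‖ ^ N' ≤ (CC * s ^ MM) * ‖F s‖ ^ N' := by
        linarith
      exact le_of_mul_le_mul_right this hFp
    have h9 : CC / ε * s ^ MM < ‖F s‖ := h3
    have h10 : CC * s ^ MM < ε * ‖F s‖ := by
      calc CC * s ^ MM = ε * (CC / ε * s ^ MM) := by field_simp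
        _ < _ := by gcongr
    have h11 : ε * ‖F s‖ ≤ ‖(q N).eval (s : ℂ)‖ * ‖F s‖ := by gcongr
    linarith

end Pool.Agent.H72R3.NC
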