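import Pool.Agent.H72R3.NC.Est

/-!
# Bounds for the leaf
-/

set_option autoImplicit false

namespace Pool.Agent.H72R3.NC

open Set Filter Topology MeasureTheory
open scoped ContDiff ENNReal

/-- homogeneous coordinates of the leaf -/
noncomputable def Pv (t : ℂ) : Hom 3 :=
  !₂[1, ex wF t, Complex.exp t, Complex.exp (-(√2 : ℝ) * t)]

/-- derivative of the homogeneous coordinates -/
noncomputable def Dv (t : ℂ) : Hom 3 :=
  !₂[0, ex wG t, Complex.exp t, -(√2 : ℝ) * Complex.exp (-(√2 : ℝ) * t)]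

lemma hom_curve (t : ℂ) : hom (curve t) = Pv t := by
  ext i
  fin_cases i
  · rfl
  · exact curve0 t
  · rfl
  · rfl

lemma deriv_hom_curve (t : ℂ) : deriv (fun t => hom (curve t)) t = Dv t := by
  rw [(hasDerivAt_hom (hasDerivAt_curve t)).deriv]
  ext i
  fin_cases i
  · rfl
  · exact ser_exp wG t
  · rfl
  · rfl

lemma norm_exp1 (t : ℂ) : ‖Complex.exp t‖ = Real.exp t.re := Complex.norm_exp t

lemma norm_exp2 (t : ℂ) : ‖Complex.exp (-(√2 : ℝ) * t)‖ = Real.exp (-√2 * t.re) := by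
  rw [Complex.norm_exp]
  congr 1
  simp

lemma norm_sq_four (v : Hom 3) : ‖v‖ ^ 2 = ‖v 0‖ ^ 2 + ‖v 1‖ ^ 2 + ‖v 2‖ ^ 2 + ‖v 3‖ ^ 2 := by
  rw [EuclideanSpace.norm_sq_eq]
  exact Fin.sum_univ_four _

lemma norm_Pv_sq (t : ℂ) : ‖Pv t‖ ^ 2 =
    1 + ‖ex wF t‖ ^ 2 + Real.exp t.re ^ 2 + Real.exp (-√2 * t.re) ^ 2 := by
  rw [norm_sq_four, ← norm_exp1, ← norm_exp2]
  show ‖(1 : ℂ)‖ ^ 2 + _ + _ + _ = _
  rw [norm_one, one_pow]
  rfl

/-- the constant -/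
noncomputable def C1 : ℝ := (10 + 9 * E0 ^ 2) / Real.pi

lemma C1_pos : 0 < C1 := by
  unfold C1
  have := Real.pi_pos
  positivity

lemma one_le_exp_abs (t : ℂ) : 1 ≤ Real.exp (dlt * |t.re|) := by
  apply Real.one_le_exp
  have := dlt_pos
  positivity

lemma fs_upper (t : ℂ) : fsDensity curve t ≤ C1 * Real.exp (-|t.re|) := by
  have hE := E0_nonneg
  have hpi := Real.pi_pos
  have hF := norm_ex_le wF_le t
  have hG := norm_ex_le wG_le t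
  set X := Real.exp (dlt * |t.re|) with hX
  have hX1 : 1 ≤ X := one_le_exp_abs t
  have hP0 : Pv t ≠ 0 := by rw [← hom_curve]; exact hom_ne _
  have hPn : 0 < ‖Pv t‖ := norm_pos_iff.2 hP0
  rw [fsDensity_def, hom_curve, deriv_hom_curve]
  -- general step
  have step : ∀ c : ℂ, ‖Dv t - c • Pv t‖ ^ 2 ≤ (10 + 9 * E0 ^ 2) * X ^ 2 →
      Real.exp (|t.re|) ^ 2 ≤ ‖Pv t‖ ^ 2 →
      (‖Dv t‖ ^ 2 * ‖Pv t‖ ^ 2 - ‖inner ℂ (Pv t) (Dv t)‖ ^ 2) / (Real.pi * ‖Pv t‖ ^ 4) ≤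
        C1 * Real.exp (-|t.re|) := by
    intro c h1 h2
    have h3 := gram_le (p := Pv t) (Dv t) c
    have h4 : X ^ 2 * Real.exp |t.re| ≤ Real.exp (|t.re|) ^ 2 := by
      rw [hX, ← Real.exp_nat_mul, ← Real.exp_nat_mul, ← Real.exp_add]
      apply Real.exp_le_exp.2
      have := dlt_lt
      have := abs_nonneg t.re
      push_cast
      nlinarith
    have h5 : X ^ 2 ≤ ‖Pv t‖ ^ 2 * Real.exp (-|t.re|) := by
      have h6 : X ^ 2 = X ^ 2 * Real.exp |t.re| * Real.exp (-|t.re|) := by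
        rw [mul_assoc, ← Real.exp_add]; simp
      rw [h6]
      have := h4.trans h2
      gcongr
    rw [div_le_iff₀ (by positivity)]
    calc _ ≤ ‖Dv t - c • Pv t‖ ^ 2 * ‖Pv t‖ ^ 2 := h3
      _ ≤ ((10 + 9 * E0 ^ 2) * (‖Pv t‖ ^ 2 * Real.exp (-|t.re|))) * ‖Pv t‖ ^ 2 := by
          gcongr
          exact h1.trans (by gcongr)
      _ = _ := by
          unfold C1
          field_simp
  have hs2 : √2 ^ 2 = (2 : ℝ) := Real.sq_sqrt (by norm_num)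
  have hs0 := Real.sqrt_nonneg (2 : ℝ)
  rcases le_total 0 t.re with h | h
  · apply step 1
    · rw [one_smul, norm_sq_four]
      have e0 : ‖(Dv t - Pv t) 0‖ ^ 2 = 1 := by
        show ‖(0 : ℂ) - 1‖ ^ 2 = 1
        simp
      have e1 : ‖(Dv t - Pv t) 1‖ ^ 2 ≤ (2 * E0 * X) ^ 2 := by
        have : ‖(Dv t - Pv t) 1‖ ≤ 2 * E0 * X := by
          show ‖ex wG t - ex wF t‖ ≤ _
          calc _ ≤ ‖ex wG t‖ + ‖ex wF t‖ := norm_sub_le _ _
            _ ≤ _ := by linarith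
        gcongr
      have e2 : ‖(Dv t - Pv t) 2‖ ^ 2 = 0 := by
        show ‖Complex.exp t - Complex.exp t‖ ^ 2 = 0
        simp
      have e3 : ‖(Dv t - Pv t) 3‖ ^ 2 ≤ 9 := by
        have : ‖(Dv t - Pv t) 3‖ ≤ 3 := by
          show ‖-(√2 : ℝ) * Complex.exp (-(√2 : ℝ) * t) - Complex.exp (-(√2 : ℝ) * t)‖ ≤ _
          have e : -(√2 : ℝ) * Complex.exp (-(√2 : ℝ) * t) - Complex.exp (-(√2 : ℝ) * t) =
            ((-(√2 + 1) : ℝ) : ℂ) * Complex.exp (-(√2 : ℝ) * t) := by push_cast; ring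
          rw [e, norm_mul, norm_exp2, Complex.norm_real, norm_neg, Real.norm_of_nonneg (by positivity)]
          have h7 : Real.exp (-√2 * t.re) ≤ 1 := by
            apply Real.exp_le_one_iff.2
            nlinarith
          have h8 := sqrt2_lt
          have h9 := Real.exp_pos (-√2 * t.re)
          nlinarith
        calc ‖(Dv t - Pv t) 3‖ ^ 2 ≤ 3 ^ 2 := by gcongr
          _ = 9 := by norm_num
      have hX2 : 1 ≤ X ^ 2 := one_le_pow₀ hX1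
      nlinarith [mul_nonneg (sq_nonneg E0) (sq_nonneg X)]
    · rw [norm_Pv_sq, abs_of_nonneg h]
      have h1 := sq_nonneg ‖ex wF t‖
      have h2 := sq_nonneg (Real.exp (-√2 * t.re))
      linarith
  · apply step (-(√2 : ℝ) : ℂ)
    · have e : Dv t - (-(√2 : ℝ) : ℂ) • Pv t = Dv t + ((√2 : ℝ) : ℂ) • Pv t := by
        rw [neg_smul, sub_neg_eq_add]
      rw [e, norm_sq_four]
      have hc : ‖((√2 : ℝ) : ℂ)‖ = √2 := by
        rw [Complex.norm_real, Real.norm_of_nonneg hs0]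
      have e0 : ‖(Dv t + ((√2 : ℝ) : ℂ) • Pv t) 0‖ ^ 2 = 2 := by
        show ‖(0 : ℂ) + ((√2 : ℝ) : ℂ) * 1‖ ^ 2 = 2
        rw [zero_add, mul_one, hc, hs2]
      have e1 : ‖(Dv t + ((√2 : ℝ) : ℂ) • Pv t) 1‖ ^ 2 ≤ (3 * E0 * X) ^ 2 := by
        have : ‖(Dv t + ((√2 : ℝ) : ℂ) • Pv t) 1‖ ≤ 3 * E0 * X := by
          show ‖ex wG t + ((√2 : ℝ) : ℂ) * ex wF t‖ ≤ _
          calc _ ≤ ‖ex wG t‖ + ‖((√2 : ℝ) : ℂ) * ex wF t‖ := norm_add_le _ _
            _ ≤ E0 * X + √2 * (E0 * X) := by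
                rw [norm_mul, hc]
                gcongr
            _ ≤ _ := by
                have := sqrt2_lt
                have : 0 ≤ E0 * X := by positivity
                nlinarith
        gcongr
      have e2 : ‖(Dv t + ((√2 : ℝ) : ℂ) • Pv t) 2‖ ^ 2 ≤ 7 := by
        have : ‖(Dv t + ((√2 : ℝ) : ℂ) • Pv t) 2‖ ≤ 2.5 := by
          show ‖Complex.exp t + ((√2 : ℝ) : ℂ) * Complex.exp t‖ ≤ _
          have e : Complex.exp t + ((√2 : ℝ) : ℂ) * Complex.exp t =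
            ((√2 + 1 : ℝ) : ℂ) * Complex.exp t := by push_cast; ring
          rw [e, norm_mul, norm_exp1, Complex.norm_real, Real.norm_of_nonneg (by positivity)]
          have h7 : Real.exp t.re ≤ 1 := Real.exp_le_one_iff.2 h
          have h8 := sqrt2_lt
          have h9 := Real.exp_pos t.re
          nlinarith
        calc ‖(Dv t + ((√2 : ℝ) : ℂ) • Pv t) 2‖ ^ 2 ≤ 2.5 ^ 2 := by gcongr
          _ ≤ 7 := by norm_num
      have e3 : ‖(Dv t + ((√2 : ℝ) : ℂ) • Pv t) 3‖ ^ 2 = 0 := by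
        show ‖-(√2 : ℝ) * Complex.exp (-(√2 : ℝ) * t) +
          ((√2 : ℝ) : ℂ) * Complex.exp (-(√2 : ℝ) * t)‖ ^ 2 = 0
        rw [neg_mul, neg_add_cancel]
        simp
      have hX2 : 1 ≤ X ^ 2 := one_le_pow₀ hX1
      nlinarith [mul_nonneg (sq_nonneg E0) (sq_nonneg X)]
    · rw [norm_Pv_sq, abs_of_nonpos h]
      have h1 := sq_nonneg ‖ex wF t‖
      have h2 := sq_nonneg (Real.exp t.re)
      have h3 : Real.exp (-t.re) ≤ Real.exp (-√2 * t.re) := by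
        apply Real.exp_le_exp.2
        have := sqrt2_gt
        nlinarith
      have h4 : Real.exp (-t.re) ^ 2 ≤ Real.exp (-√2 * t.re) ^ 2 := by
        have := Real.exp_pos (-t.re)
        gcongr
      linarith

/-- bound for the homogeneous coordinates on the strip -/
noncomputable def BB : ℝ := 37 + 9 * E0 ^ 2

lemma BB_pos : 0 < BB := by unfold BB; positivity

lemma norm_Pv_le {t : ℂ} (ht : |t.re| ≤ 1) : ‖Pv t‖ ^ 2 ≤ BB := by
  rw [norm_Pv_sq]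
  have hE := E0_nonneg
  have he : Real.exp 1 ≤ 3 := by
    have := Real.exp_one_lt_d9
    linarith
  have h1 : ‖ex wF t‖ ≤ E0 * 3 := by
    refine (norm_ex_le wF_le t).trans ?_
    gcongr
    refine le_trans (Real.exp_le_exp.2 ?_) he
    have := dlt_pos
    have := dlt_lt
    nlinarith [abs_nonneg t.re]
  have h2 : Real.exp t.re ≤ 3 := by
    refine le_trans (Real.exp_le_exp.2 ?_) he
    exact (le_abs_self _).trans ht
  have h3 : Real.exp (-√2 * t.re) ^ 2 ≤ 27 := by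
    rw [← Real.exp_nat_mul]
    have h4 : ((2 : ℕ) : ℝ) * (-√2 * t.re) ≤ 3 := by
      have h5 := sqrt2_lt
      have h6 := sqrt2_gt
      have h7 := neg_abs_le t.re
      push_cast
      nlinarith [abs_nonneg t.re]
    calc Real.exp (((2 : ℕ) : ℝ) * (-√2 * t.re)) ≤ Real.exp 3 := Real.exp_le_exp.2 h4
      _ = Real.exp 1 ^ 3 := by rw [← Real.exp_nat_mul]; norm_num
      _ ≤ 3 ^ 3 := by
          have := Real.exp_pos 1
          gcongr
      _ = 27 := by norm_num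
  have h8 : ‖ex wF t‖ ^ 2 ≤ (E0 * 3) ^ 2 := by gcongr
  have h9 : Real.exp t.re ^ 2 ≤ 3 ^ 2 := by
    have := Real.exp_pos t.re
    gcongr
  unfold BB
  nlinarith

lemma fs_lower {t : ℂ} (ht : |t.re| ≤ 1) :
    Real.exp (-2) / (Real.pi * BB ^ 2) ≤ fsDensity curve t := by
  have hP0 : Pv t ≠ 0 := by rw [← hom_curve]; exact hom_ne _
  have hPn : 0 < ‖Pv t‖ := norm_pos_iff.2 hP0
  have hpi := Real.pi_pos
  have hB := BB_pos
  rw [fsDensity_def, hom_curve, deriv_hom_curve, gram_eq hP0]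
  set h := hor (Pv t) (Dv t) with hh
  set c := inner ℂ (Pv t) (Dv t) / (‖Pv t‖ : ℂ) ^ 2 with hc
  have hD : Dv t = h + c • Pv t := by rw [hh]; unfold hor; abel
  have m : Pv t 0 * h 2 - Pv t 2 * h 0 = Complex.exp t := by
    have e0 : h 0 = Dv t 0 - c * Pv t 0 := by
      rw [hD]
      show h 0 = h 0 + c * Pv t 0 - c * Pv t 0
      ring
    have e2 : h 2 = Dv t 2 - c * Pv t 2 := by
      rw [hD]
      show h 2 = h 2 + c * Pv t 2 - c * Pv t 2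
      ring
    rw [e0, e2]
    have f0 : Pv t 0 = 1 := rfl
    have f1 : Dv t 0 = 0 := rfl
    have f2 : Dv t 2 = Complex.exp t := rfl
    rw [f0, f1, f2]
    ring
  have h1 : ‖Complex.exp t‖ ^ 2 ≤ ‖h‖ ^ 2 * ‖Pv t‖ ^ 2 := by
    rw [← m]
    have h2 : ‖Pv t 0 * h 2 - Pv t 2 * h 0‖ ≤ ‖Pv t 0‖ * ‖h 2‖ + ‖Pv t 2‖ * ‖h 0‖ := by
      refine (norm_sub_le _ _).trans ?_
      rw [norm_mul, norm_mul]
    have h3 := norm_sq_four (Pv t)
    have h4 := norm_sq_four h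
    have h5 : (‖Pv t 0‖ * ‖h 2‖ + ‖Pv t 2‖ * ‖h 0‖) ^ 2 ≤
        (‖Pv t 0‖ ^ 2 + ‖Pv t 2‖ ^ 2) * (‖h 0‖ ^ 2 + ‖h 2‖ ^ 2) := by
      nlinarith [sq_nonneg (‖Pv t 0‖ * ‖h 0‖ - ‖Pv t 2‖ * ‖h 2‖)]
    have h6 : ‖Pv t 0‖ ^ 2 + ‖Pv t 2‖ ^ 2 ≤ ‖Pv t‖ ^ 2 := by
      rw [h3]; nlinarith [sq_nonneg ‖Pv t 1‖, sq_nonneg ‖Pv t 3‖]
    have h7 : ‖h 0‖ ^ 2 + ‖h 2‖ ^ 2 ≤ ‖h‖ ^ 2 := by
      rw [h4]; nlinarith [sq_nonneg ‖h 1‖, sq_nonneg ‖h 3‖]
    calc _ ≤ (‖Pv t 0‖ * ‖h 2‖ + ‖Pv t 2‖ * ‖h 0‖) ^ 2 := by gcongr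
      _ ≤ (‖Pv t 0‖ ^ 2 + ‖Pv t 2‖ ^ 2) * (‖h 0‖ ^ 2 + ‖h 2‖ ^ 2) := h5
      _ ≤ ‖Pv t‖ ^ 2 * ‖h‖ ^ 2 := by gcongr
      _ = _ := by ring
  have h2 : Real.exp (-2) ≤ ‖Complex.exp t‖ ^ 2 := by
    rw [norm_exp1, ← Real.exp_nat_mul]
    apply Real.exp_le_exp.2
    have := (abs_le.1 ht).1
    push_cast
    linarith
  have h3 := norm_Pv_le ht
  have h4 : ‖Pv t‖ ^ 4 ≤ BB ^ 2 := by
    have : ‖Pv t‖ ^ 4 = (‖Pv t‖ ^ 2) ^ 2 := by ring
    rw [this]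
    gcongr
  gcongr
  exact h2.trans h1

end Pool.Agent.H72R3.NC
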