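import Mathlib

/-!
# The logarithmic kernel
-/

set_option autoImplicit false

namespace Pool.Agent.H72R3.NC

open Set Filter Topology MeasureTheory
open scoped ENNReal

/-- `∫_a^r dt/t = log (r/a)` -/
lemma lint_inv {a r : ℝ} (ha : 0 < a) (har : a < r) :
    ∫⁻ t in Ioo a r, ENNReal.ofReal (1 / t) = ENNReal.ofReal (Real.log (r / a)) := by
  have hint : IntegrableOn (fun t : ℝ => 1 / t) (Ioc a r) := by
    have h : IntervalIntegrable (fun t : ℝ => 1 / t) volume a r := by
      apply ContinuousOn.intervalIntegrable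
      intro t ht
      rw [uIcc_of_le har.le] at ht
      have : t ≠ 0 := by linarith [ht.1]
      exact (continuousAt_const.div continuousAt_id this).continuousWithinAt
    exact (intervalIntegrable_iff_integrableOn_Ioc_of_le har.le).1 h
  have h1 : ∫⁻ t in Ioo a r, ENNReal.ofReal (1 / t) = ∫⁻ t in Ioc a r, ENNReal.ofReal (1 / t) := by
    rw [restrict_Ioo_eq_restrict_Ioc]
  rw [h1, ← ofReal_integral_eq_lintegral_ofReal hint]
  · congr 1
    rw [← intervalIntegral.integral_of_le har.le, integral_one_div_of_pos ha (ha.trans har)]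
  · rw [EventuallyLE, ae_restrict_iff' measurableSet_Ioc]
    refine Eventually.of_forall fun t ht => ?_
    have : 0 < t := ha.trans ht.1
    simp only [Pi.zero_apply]
    positivity

/-- Tonelli for the Nevanlinna kernel. -/
lemma tonelli {u : ℂ → ℝ} (hu : Continuous u) (r : ℝ) :
    ∫⁻ t in Ioo 0 r, ENNReal.ofReal (1 / t) * ∫⁻ ζ in Metric.ball (0 : ℂ) t, ENNReal.ofReal (u ζ) =
    ∫⁻ ζ in Metric.ball (0 : ℂ) r, ENNReal.ofReal (Real.log (r / ‖ζ‖)) * ENNReal.ofReal (u ζ) := by
  set g : ℝ → ℂ → ℝ≥0∞ := fun t ζ =>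
    {p : ℝ × ℂ | 0 < p.1 ∧ p.1 < r ∧ ‖p.2‖ < p.1}.indicator
      (fun p => ENNReal.ofReal (1 / p.1) * ENNReal.ofReal (u p.2)) (t, ζ) with hg
  have hmeas : Measurable (Function.uncurry g) := by
    have hset : MeasurableSet {p : ℝ × ℂ | 0 < p.1 ∧ p.1 < r ∧ ‖p.2‖ < p.1} := by
      apply MeasurableSet.inter
      · exact measurableSet_lt measurable_const measurable_fst
      apply MeasurableSet.inter
      · exact measurableSet_lt measurable_fst measurable_const
      · exact measurableSet_lt measurable_snd.norm measurable_fst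
    have hf : Measurable fun p : ℝ × ℂ => ENNReal.ofReal (1 / p.1) * ENNReal.ofReal (u p.2) := by
      have m1 : Measurable fun p : ℝ × ℂ => ENNReal.ofReal (1 / p.1) :=
        (measurable_const.div measurable_fst).ennreal_ofReal
      have m2 : Measurable fun p : ℝ × ℂ => ENNReal.ofReal (u p.2) :=
        (hu.measurable.comp measurable_snd).ennreal_ofReal
      exact m1.mul m2
    exact hf.indicator hset
  have h1 : ∫⁻ t in Ioo 0 r, ENNReal.ofReal (1 / t) *
      ∫⁻ ζ in Metric.ball (0 : ℂ) t, ENNReal.ofReal (u ζ) = ∫⁻ t, ∫⁻ ζ, g t ζ := by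
    rw [← lintegral_indicator measurableSet_Ioo]
    congr 1
    ext t
    by_cases ht : t ∈ Ioo 0 r
    · rw [indicator_of_mem ht, ← lintegral_const_mul _ hu.measurable.ennreal_ofReal,
        ← lintegral_indicator measurableSet_ball]
      congr 1
      ext ζ
      simp only [hg]
      by_cases hz : ζ ∈ Metric.ball (0 : ℂ) t
      · rw [indicator_of_mem hz, indicator_of_mem]
        rw [mem_ball_zero_iff] at hz
        exact ⟨ht.1, ht.2, hz⟩
      · rw [indicator_of_notMem hz, indicator_of_notMem]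
        rintro ⟨_, _, h⟩
        exact hz (mem_ball_zero_iff.2 h)
    · rw [indicator_of_notMem ht]
      symm
      rw [lintegral_eq_zero_iff' ]
      · refine Eventually.of_forall fun ζ => ?_
        simp only [hg, Pi.zero_apply]
        rw [indicator_of_notMem]
        rintro ⟨h, h', _⟩
        exact ht ⟨h, h'⟩
      · exact (hmeas.comp measurable_prodMk_left).aemeasurable
  rw [h1, lintegral_lintegral_swap hmeas.aemeasurable, ← lintegral_indicator measurableSet_ball]
  apply lintegral_congr_ae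
  have h0 : ∀ᵐ ζ : ℂ, ζ ≠ 0 := by
    have : (volume : Measure ℂ) {0} = 0 := measure_singleton 0
    rw [ae_iff]
    simp
  filter_upwards [h0] with ζ hζ
  have hn : 0 < ‖ζ‖ := norm_pos_iff.2 hζ
  by_cases hz : ζ ∈ Metric.ball (0 : ℂ) r
  · rw [indicator_of_mem hz]
    have hzr : ‖ζ‖ < r := mem_ball_zero_iff.1 hz
    rw [← lint_inv hn hzr, ← lintegral_mul_const _ (by fun_prop),
      ← lintegral_indicator measurableSet_Ioo]
    congr 1
    ext t
    simp only [hg]
    by_cases ht : t ∈ Ioo ‖ζ‖ r
    · rw [indicator_of_mem ht, indicator_of_mem]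
      exact ⟨hn.trans ht.1, ht.2, ht.1⟩
    · rw [indicator_of_notMem ht, indicator_of_notMem]
      rintro ⟨_, h, h'⟩
      exact ht ⟨h', h⟩
  · rw [indicator_of_notMem hz, lintegral_eq_zero_iff']
    · refine Eventually.of_forall fun t => ?_
      simp only [hg, Pi.zero_apply]
      rw [indicator_of_notMem]
      rintro ⟨_, h, h'⟩
      exact hz (mem_ball_zero_iff.2 (h'.trans h))
    · exact (hmeas.comp measurable_prodMk_right).aemeasurable

/-- the first integral is finite -/
lemma finite_left {u : ℂ → ℝ} (hu : Continuous u) (r : ℝ) :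
    ∫⁻ t in Ioo 0 r, ENNReal.ofReal (1 / t) * ∫⁻ ζ in Metric.ball (0 : ℂ) t, ENNReal.ofReal (u ζ)
      < ∞ := by
  obtain ⟨C, hC⟩ := (isCompact_closedBall (0 : ℂ) r).exists_bound_of_continuousOn hu.continuousOn
  have hb : ∀ t ∈ Ioo 0 r, ENNReal.ofReal (1 / t) *
      ∫⁻ ζ in Metric.ball (0 : ℂ) t, ENNReal.ofReal (u ζ) ≤
      ENNReal.ofReal (C * Real.pi * r) := by
    intro t ht
    have ht0 : 0 < t := ht.1
    have hC0 : 0 ≤ C := (norm_nonneg _).trans (hC 0 (by simp; linarith [ht.1, ht.2]))
    have h1 : ∫⁻ ζ in Metric.ball (0 : ℂ) t, ENNReal.ofReal (u ζ) ≤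
        ∫⁻ ζ in Metric.ball (0 : ℂ) t, ENNReal.ofReal C := by
      apply setLIntegral_mono measurable_const
      intro ζ hζ
      apply ENNReal.ofReal_le_ofReal
      have : ζ ∈ Metric.closedBall (0 : ℂ) r := by
        rw [mem_closedBall_zero_iff]
        rw [mem_ball_zero_iff] at hζ
        linarith [ht.2]
      exact (le_abs_self _).trans (hC ζ this)
    have h2 : ∫⁻ ζ in Metric.ball (0 : ℂ) t, ENNReal.ofReal C =
        ENNReal.ofReal (C * (Real.pi * t ^ 2)) := by
      rw [setLIntegral_const, Complex.volume_ball, ENNReal.ofReal_mul hC0]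
      congr 1
      rw [ENNReal.ofReal_mul Real.pi_pos.le, mul_comm, ← ENNReal.ofReal_pow ht0.le]
      congr 1
      rw [ENNReal.ofReal, Real.toNNReal_of_nonneg Real.pi_pos.le]
      rfl
    calc _ ≤ ENNReal.ofReal (1 / t) * ENNReal.ofReal (C * (Real.pi * t ^ 2)) := by
          gcongr
          exact h1.trans h2.le
      _ = ENNReal.ofReal (C * Real.pi * t) := by
          rw [← ENNReal.ofReal_mul (by positivity)]
          congr 1
          field_simp
      _ ≤ _ := by
          apply ENNReal.ofReal_le_ofReal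
          have := Real.pi_pos
          have := ht.2.le
          gcongr
  calc _ ≤ ∫⁻ t in Ioo 0 r, ENNReal.ofReal (C * Real.pi * r) :=
        setLIntegral_mono measurable_const hb
    _ < ∞ := by
        rw [setLIntegral_const]
        exact ENNReal.mul_lt_top ENNReal.ofReal_lt_top (by simp)

lemma log_nonneg_ball {r : ℝ} {ζ : ℂ} (hζ : ζ ∈ Metric.ball (0 : ℂ) r) :
    0 ≤ Real.log (r / ‖ζ‖) := by
  rw [mem_ball_zero_iff] at hζ
  rcases eq_or_ne ζ 0 with rfl | h
  · simp
  · apply Real.log_nonneg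
    rw [le_div_iff₀ (norm_pos_iff.2 h)]
    linarith

lemma meas_log (r : ℝ) : Measurable fun ζ : ℂ => Real.log (r / ‖ζ‖) :=
  Real.measurable_log.comp (measurable_const.div measurable_norm)

/-- integrability of the kernel against continuous functions -/
lemma integrable_kernel {u : ℂ → ℝ} (hu : Continuous u) (r : ℝ) :
    IntegrableOn (fun ζ => Real.log (r / ‖ζ‖) * u ζ) (Metric.ball (0 : ℂ) r) := by
  have h := finite_left hu.abs r
  rw [tonelli hu.abs] at h
  refine ⟨((meas_log r).mul hu.measurable).aestronglyMeasurable, ?_⟩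
  rw [hasFiniteIntegral_iff_norm]
  refine lt_of_le_of_lt ?_ h
  apply setLIntegral_mono'
  · exact measurableSet_ball
  · intro ζ hζ
    rw [← ENNReal.ofReal_mul (log_nonneg_ball hζ)]
    apply ENNReal.ofReal_le_ofReal
    rw [norm_mul, Real.norm_of_nonneg (log_nonneg_ball hζ), Real.norm_eq_abs]

/-- Fubini: both forms of the Nevanlinna characteristic. -/
lemma nev_eq {u : ℂ → ℝ} (hu : Continuous u) (hu0 : ∀ ζ, 0 ≤ u ζ) (r : ℝ) :
    ∫ t in Ioo 0 r, (1 / t) * ∫ ζ in Metric.ball (0 : ℂ) t, u ζ =
      ∫ ζ in Metric.ball (0 : ℂ) r, Real.log (r / ‖ζ‖) * u ζ := by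
  have hball : ∀ t : ℝ, ENNReal.ofReal (∫ ζ in Metric.ball (0 : ℂ) t, u ζ) =
      ∫⁻ ζ in Metric.ball (0 : ℂ) t, ENNReal.ofReal (u ζ) := by
    intro t
    rw [ofReal_integral_eq_lintegral_ofReal]
    · exact (hu.continuousOn.integrableOn_compact (isCompact_closedBall 0 t)).mono_set
        Metric.ball_subset_closedBall
    · exact Eventually.of_forall hu0
  have hA0 : ∀ t : ℝ, 0 ≤ ∫ ζ in Metric.ball (0 : ℂ) t, u ζ := fun t =>
    setIntegral_nonneg measurableSet_ball fun ζ _ => hu0 ζ
  have hmeasA : Measurable fun t : ℝ => ∫ ζ in Metric.ball (0 : ℂ) t, u ζ := by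
    apply Monotone.measurable
    intro s t hst
    apply setIntegral_mono_set
    · exact (hu.continuousOn.integrableOn_compact (isCompact_closedBall 0 t)).mono_set
        Metric.ball_subset_closedBall
    · exact Eventually.of_forall hu0
    · exact (Metric.ball_subset_ball hst).eventuallyLE
  rw [integral_eq_lintegral_of_nonneg_ae, integral_eq_lintegral_of_nonneg_ae]
  · congr 1
    have h1 : ∫⁻ t in Ioo 0 r, ENNReal.ofReal ((1 / t) * ∫ ζ in Metric.ball (0 : ℂ) t, u ζ) =
        ∫⁻ t in Ioo 0 r, ENNReal.ofReal (1 / t) *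
          ∫⁻ ζ in Metric.ball (0 : ℂ) t, ENNReal.ofReal (u ζ) := by
      apply setLIntegral_congr_fun measurableSet_Ioo
      intro t ht
      have : 0 < t := ht.1
      simp only
      rw [ENNReal.ofReal_mul (by positivity), hball]
    rw [h1, tonelli hu]
    apply setLIntegral_congr_fun measurableSet_ball
    intro ζ hζ
    simp only
    rw [ENNReal.ofReal_mul (log_nonneg_ball hζ)]
  · rw [EventuallyLE, ae_restrict_iff' measurableSet_ball]
    refine Eventually.of_forall fun ζ hζ => ?_
    exact mul_nonneg (log_nonneg_ball hζ) (hu0 ζ)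
  · exact ((meas_log r).mul hu.measurable).aestronglyMeasurable
  · rw [EventuallyLE, ae_restrict_iff' measurableSet_Ioo]
    refine Eventually.of_forall fun t ht => ?_
    have : 0 < t := ht.1
    have := hA0 t
    simp only [Pi.zero_apply]
    positivity
  · exact ((measurable_const.div measurable_id).mul hmeasA).aestronglyMeasurable

end Pool.Agent.H72R3.NC
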