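import Pool.Agent.H72R3.NC.Defs
import Pool.Agent.H72R3.NC.Nev

/-!
# Cluster points of Nevanlinna currents exist
-/

set_option autoImplicit false

namespace Pool.Agent.H72R3.NC

open Set Filter Topology MeasureTheory
open scoped ContDiff

section Two

variable {E : Type*} [NormedAddCommGroup E] [NormedSpace ℂ E]

lemma two_swap (β : E [⋀^Fin 2]→L[ℝ] ℂ) (a b : E) : β ![a, b] = -β ![b, a] := by
  have h := β.toAlternatingMap.map_swap ![b, a] (i := 0) (j := 1) (by simp)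
  have e : (![b, a] ∘ (Equiv.swap (0 : Fin 2) 1) : Fin 2 → E) = ![a, b] := by
    ext i
    fin_cases i <;> simp
  rw [e] at h
  exact h

lemma two_add_left (β : E [⋀^Fin 2]→L[ℝ] ℂ) (a b c : E) : β ![a + b, c] = β ![a, c] + β ![b, c] :=
  β.vecCons_add _ _ _

lemma two_add_right (β : E [⋀^Fin 2]→L[ℝ] ℂ) (a b c : E) :
    β ![a, b + c] = β ![a, b] + β ![a, c] := by
  rw [two_swap, two_add_left, two_swap β b a, two_swap β c a]
  ring

lemma two_smul_left (β : E [⋀^Fin 2]→L[ℝ] ℂ) (r : ℝ) (a b : E) :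
    β ![r • a, b] = r • β ![a, b] :=
  β.vecCons_smul _ _ _

lemma two_smul_right (β : E [⋀^Fin 2]→L[ℝ] ℂ) (r : ℝ) (a b : E) :
    β ![a, r • b] = r • β ![a, b] := by
  rw [two_swap, two_smul_left, two_swap β b a, smul_neg, neg_neg]

end Two

section Inner

variable {E : Type*} [NormedAddCommGroup E] [InnerProductSpace ℂ E]

/-- the component of `d` orthogonal to `p` -/
noncomputable def hor (p d : E) : E := d - (inner ℂ p d / (‖p‖ : ℂ) ^ 2) • p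

lemma inner_hor {p : E} (hp : p ≠ 0) (d : E) : inner ℂ p (hor p d) = 0 := by
  have hn : (‖p‖ : ℂ) ≠ 0 := by exact_mod_cast (norm_pos_iff.2 hp).ne'
  unfold hor
  rw [inner_sub_right, inner_smul_right, inner_self_eq_norm_sq_to_K]
  field_simp
  simp

lemma gram_eq {p : E} (hp : p ≠ 0) (d : E) :
    ‖d‖ ^ 2 * ‖p‖ ^ 2 - ‖inner ℂ p d‖ ^ 2 = ‖hor p d‖ ^ 2 * ‖p‖ ^ 2 := by
  have hn : 0 < ‖p‖ := norm_pos_iff.2 hp
  have h1 : d = hor p d + (inner ℂ p d / (‖p‖ : ℂ) ^ 2) • p := by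
    unfold hor
    abel
  have h2 : ‖d‖ ^ 2 = ‖hor p d‖ ^ 2 + ‖(inner ℂ p d / (‖p‖ : ℂ) ^ 2) • p‖ ^ 2 := by
    conv_lhs => rw [h1]
    rw [norm_add_sq (𝕜 := ℂ), inner_smul_right]
    have : inner ℂ (hor p d) p = 0 := by
      rw [← inner_conj_symm, inner_hor hp, map_zero]
    rw [this]
    simp
  rw [h2, norm_smul, norm_div, norm_pow, Complex.norm_real, Real.norm_of_nonneg hn.le]
  field_simp
  ring

lemma gram_le {p : E} (d : E) (c : ℂ) :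
    ‖d‖ ^ 2 * ‖p‖ ^ 2 - ‖inner ℂ p d‖ ^ 2 ≤ ‖d - c • p‖ ^ 2 * ‖p‖ ^ 2 := by
  have h1 : ‖d - c • p‖ ^ 2 = ‖d‖ ^ 2 - 2 * (c * inner ℂ d p).re + ‖c‖ ^ 2 * ‖p‖ ^ 2 := by
    rw [norm_sub_sq (𝕜 := ℂ), inner_smul_right, norm_smul, mul_pow]
    rfl
  have h2 : ‖inner ℂ p d‖ = ‖inner ℂ d p‖ := norm_inner_symm _ _
  rw [h1, h2]
  set w := inner ℂ d p
  have h3 : ‖(starRingEnd ℂ) w - c * ((‖p‖ ^ 2 : ℝ) : ℂ)‖ ^ 2 =
      ‖w‖ ^ 2 - 2 * (c * w).re * ‖p‖ ^ 2 + ‖c‖ ^ 2 * ‖p‖ ^ 4 := by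
    rw [← Complex.normSq_eq_norm_sq, ← Complex.normSq_eq_norm_sq, ← Complex.normSq_eq_norm_sq,
      Complex.normSq_apply, Complex.normSq_apply, Complex.normSq_apply]
    simp only [Complex.sub_re, Complex.sub_im, Complex.conj_re, Complex.conj_im,
      Complex.mul_re, Complex.mul_im, Complex.ofReal_re, Complex.ofReal_im]
    ring
  nlinarith [sq_nonneg ‖(starRingEnd ℂ) w - c * ((‖p‖ ^ 2 : ℝ) : ℂ)‖]

end Inner

variable {k : ℕ}

/-- The complex vector space of the smooth `(1,1)`-forms on `ℙ^k`. -/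
noncomputable def forms11 (k : ℕ) : Submodule ℂ (Hom k → Hom k [⋀^Fin 2]→L[ℝ] ℂ) where
  carrier := {θ | θ 0 = 0 ∧ ContDiffOn ℝ ∞ θ {0}ᶜ ∧
    (∀ z, z ≠ 0 → ∀ v w : Hom k, θ z ![Complex.I • v, Complex.I • w] = θ z ![v, w]) ∧
    (∀ z, z ≠ 0 → ∀ (c : ℂ) (w : Hom k), θ z ![c • z, w] = 0) ∧
    (∀ z, z ≠ 0 → ∀ c : ℂ, c ≠ 0 → ∀ v w : Hom k, θ (c • z) ![c • v, c • w] = θ z ![v, w])}
  add_mem' := by
    rintro a b ⟨a0, a1, a2, a3, a4⟩ ⟨b0, b1, b2, b3, b4⟩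
    refine ⟨by simp [a0, b0], a1.add b1, ?_, ?_, ?_⟩
    · intro z hz v w
      simp [a2 z hz, b2 z hz]
    · intro z hz c w
      simp [a3 z hz, b3 z hz]
    · intro z hz c hc v w
      simp [a4 z hz c hc, b4 z hz c hc]
  zero_mem' := by
    refine ⟨rfl, contDiffOn_const, ?_, ?_, ?_⟩ <;> simp
  smul_mem' := by
    rintro r a ⟨a0, a1, a2, a3, a4⟩
    refine ⟨by simp [a0], a1.const_smul r, ?_, ?_, ?_⟩
    · intro z hz v w
      simp [a2 z hz]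
    · intro z hz c w
      simp [a3 z hz]
    · intro z hz c hc v w
      simp [a4 z hz c hc]

lemma mem_forms11 {θ : Hom k → Hom k [⋀^Fin 2]→L[ℝ] ℂ} : θ ∈ forms11 k ↔ IsForm11 θ := Iff.rfl

lemma density_def (θ : Hom k → Hom k [⋀^Fin 2]→L[ℝ] ℂ) (φ : ℂ → Aff k) (ζ : ℂ) :
    density θ φ ζ = θ (hom (φ ζ)) ![deriv (fun t => hom (φ t)) ζ,
      Complex.I • deriv (fun t => hom (φ t)) ζ] := rfl

lemma fsDensity_eq (φ : ℂ → Aff k) : fsDensity φ = fun ζ =>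
  (‖deriv (fun t => hom (φ t)) ζ‖ ^ 2 * ‖hom (φ ζ)‖ ^ 2
    - ‖inner ℂ (hom (φ ζ)) (deriv (fun t => hom (φ t)) ζ)‖ ^ 2) / (Real.pi * ‖hom (φ ζ)‖ ^ 4) := rfl

lemma fsDensity_def (φ : ℂ → Aff k) (ζ : ℂ) : fsDensity φ ζ =
  (‖deriv (fun t => hom (φ t)) ζ‖ ^ 2 * ‖hom (φ ζ)‖ ^ 2
    - ‖inner ℂ (hom (φ ζ)) (deriv (fun t => hom (φ t)) ζ)‖ ^ 2) / (Real.pi * ‖hom (φ ζ)‖ ^ 4) := rfl

lemma hom_zero (z : Aff k) : hom z 0 = 1 := rfl
lemma hom_succ (z : Aff k) (i : Fin k) : hom z i.succ = z i := rfl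

lemma hom_ne (z : Aff k) : hom z ≠ 0 := by
  intro h
  have h2 := hom_zero z
  rw [h] at h2
  exact zero_ne_one h2

lemma hasDerivAt_hom {φ : ℂ → Aff k} {v : Aff k} {t : ℂ} (h : HasDerivAt φ v t) :
    HasDerivAt (fun t => hom (φ t)) (WithLp.toLp 2 (Fin.cons 0 (fun i => v i))) t := by
  have h2 : HasDerivAt (fun s => (Fin.cons 1 (fun i => φ s i) : Fin (k + 1) → ℂ))
      (Fin.cons 0 (fun i => v i)) t := by
    rw [hasDerivAt_pi]
    intro i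
    refine Fin.cases ?_ (fun j => ?_) i
    · simpa using hasDerivAt_const t (1 : ℂ)
    · simp only [Fin.cons_succ]
      exact (EuclideanSpace.proj (𝕜 := ℂ) j).hasFDerivAt.comp_hasDerivAt t h
  exact (EuclideanSpace.equiv (Fin (k + 1)) ℂ).symm.hasFDerivAt.comp_hasDerivAt t h2

lemma diff_hom {φ : ℂ → Aff k} (hφ : Differentiable ℂ φ) : Differentiable ℂ fun t => hom (φ t) :=
  fun t => (hasDerivAt_hom (hφ t).hasDerivAt).differentiableAt

/-- The tautological function of a form on pairs (point, tangent vector). -/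
noncomputable def sphFun (θ : Hom k → Hom k [⋀^Fin 2]→L[ℝ] ℂ) (p : Hom k × Hom k) : ℂ :=
  θ p.1 ![p.2, Complex.I • p.2]

/-- the compact set of pairs -/
def sph (k : ℕ) : Set (Hom k × Hom k) := Metric.sphere 0 1 ×ˢ Metric.closedBall 0 1

lemma isCompact_sph : IsCompact (sph k) := (isCompact_sphere 0 1).prod (isCompact_closedBall 0 1)

lemma form_eval {θ : Hom k → Hom k [⋀^Fin 2]→L[ℝ] ℂ} (hθ : θ ∈ forms11 k) {p d : Hom k}
    (hp : p ≠ 0) : θ p ![d, Complex.I • d] = θ p ![hor p d, Complex.I • hor p d] := by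
  obtain ⟨_, _, _, h3, _⟩ := hθ
  set c := inner ℂ p d / (‖p‖ : ℂ) ^ 2
  have h1 : d = hor p d + c • p := by unfold hor; abel
  generalize hor p d = v at h1 ⊢
  have h2 : Complex.I • d = Complex.I • v + (Complex.I * c) • p := by
    conv_lhs => rw [h1]
    rw [smul_add, smul_smul]
  conv_lhs => rw [h2]
  rw [two_add_right, two_swap (θ p) d ((Complex.I * c) • p), h3 p hp]
  conv_lhs => rw [h1]
  rw [two_add_left, h3 p hp]
  simp

lemma form_eval2 {θ : Hom k → Hom k [⋀^Fin 2]→L[ℝ] ℂ} (hθ : θ ∈ forms11 k) {p v : Hom k}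
    (hp : p ≠ 0) (hv : v ≠ 0) :
    θ p ![v, Complex.I • v] = ((‖v‖ ^ 2 / ‖p‖ ^ 2 : ℝ) : ℂ) *
      sphFun θ ((‖p‖⁻¹ : ℝ) • p, (‖v‖⁻¹ : ℝ) • v) := by
  obtain ⟨_, _, _, _, h4⟩ := hθ
  have hn : 0 < ‖p‖ := norm_pos_iff.2 hp
  have hn' : 0 < ‖v‖ := norm_pos_iff.2 hv
  have hnc : (‖p‖ : ℂ) ≠ 0 := by exact_mod_cast hn.ne'
  have hz : (‖p‖⁻¹ : ℝ) • p ≠ 0 := smul_ne_zero (by positivity) hp
  have e1 : (‖p‖ : ℂ) • ((‖p‖⁻¹ : ℝ) • p) = p := by
    rw [← Complex.coe_smul, smul_smul]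
    push_cast
    rw [mul_inv_cancel₀ hnc, one_smul]
  set s : ℝ := ‖v‖ / ‖p‖ with hs
  set u : Hom k := (‖v‖⁻¹ : ℝ) • v with hu
  have e2 : (‖p‖ : ℂ) • (s • u) = v := by
    rw [Complex.coe_smul, smul_smul, hu, smul_smul]
    have : ‖p‖ * s * ‖v‖⁻¹ = 1 := by
      rw [hs]; field_simp
    rw [this, one_smul]
  have e3 : (‖p‖ : ℂ) • (s • (Complex.I • u)) = Complex.I • v := by
    conv_rhs => rw [← e2]
    rw [smul_comm s, smul_comm (‖p‖ : ℂ)]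
  have h := h4 ((‖p‖⁻¹ : ℝ) • p) hz (‖p‖ : ℂ) hnc (s • u) (s • (Complex.I • u))
  rw [e1, e2, e3] at h
  rw [h, two_smul_left, two_smul_right, smul_smul]
  unfold sphFun
  rw [Complex.real_smul]
  congr 2
  rw [hs]
  field_simp

/-- The pointwise bound. -/
lemma norm_density_le {θ : Hom k → Hom k [⋀^Fin 2]→L[ℝ] ℂ} (hθ : θ ∈ forms11 k) {M : ℝ}
    (hM : ∀ p ∈ sph k, ‖sphFun θ p‖ ≤ M) (φ : ℂ → Aff k) (t : ℂ) :
    ‖density θ φ t‖ ≤ Real.pi * M * fsDensity φ t := by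
  rw [density_def, fsDensity_def]
  set p := hom (φ t) with hp'
  set d := deriv (fun t => hom (φ t)) t
  have hp : p ≠ 0 := hom_ne _
  have hn : 0 < ‖p‖ := norm_pos_iff.2 hp
  rw [form_eval hθ hp, gram_eq hp]
  have hpi := Real.pi_pos
  rcases eq_or_ne (hor p d) 0 with h0 | h0
  · rw [h0]
    have : θ p ![(0 : Hom k), Complex.I • (0 : Hom k)] = 0 := by
      apply (θ p).map_coord_zero 0
      simp
    rw [this]
    simp
  · have hv : 0 < ‖hor p d‖ := norm_pos_iff.2 h0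
    rw [form_eval2 hθ hp h0, norm_mul, Complex.norm_real, Real.norm_of_nonneg (by positivity)]
    have hmem : ((‖p‖⁻¹ : ℝ) • p, (‖hor p d‖⁻¹ : ℝ) • hor p d) ∈ sph k := by
      refine ⟨?_, ?_⟩
      · rw [mem_sphere_zero_iff_norm, norm_smul, norm_inv, norm_norm]
        exact inv_mul_cancel₀ hn.ne'
      · rw [mem_closedBall_zero_iff, norm_smul, norm_inv, norm_norm]
        exact (inv_mul_cancel₀ hv.ne').le
    calc _ ≤ ‖hor p d‖ ^ 2 / ‖p‖ ^ 2 * M := by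
          gcongr
          exact hM _ hmem
      _ = _ := by field_simp

lemma continuousOn_sphFun {θ : Hom k → Hom k [⋀^Fin 2]→L[ℝ] ℂ} (hθ : θ ∈ forms11 k) :
    ContinuousOn (sphFun θ) ({0}ᶜ ×ˢ univ) := by
  obtain ⟨_, h1, _⟩ := hθ
  have hc : ContinuousOn (fun p : Hom k × Hom k => θ p.1) ({0}ᶜ ×ˢ univ) :=
    h1.continuousOn.comp continuousOn_fst (fun p hp => hp.1)
  have hv : Continuous fun p : Hom k × Hom k => (![p.2, Complex.I • p.2] : Fin 2 → Hom k) := by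
    apply continuous_pi
    intro i
    fin_cases i
    · exact continuous_snd
    · exact continuous_snd.const_smul Complex.I
  intro p hp
  have h2 := (hc p hp)
  have h3 := hv.continuousWithinAt (s := {0}ᶜ ×ˢ univ) (x := p)
  unfold sphFun
  exact h2.eval h3

end Pool.Agent.H72R3.NC
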