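import Pool.Agent.H72R3.NC.Cluster

/-!
# Cluster points of Nevanlinna currents exist: extraction
-/

set_option autoImplicit false

namespace Pool.Agent.H72R3.NC

open Set Filter Topology MeasureTheory
open scoped ContDiff

variable {k : ℕ}

lemma continuous_deriv_hom {φ : ℂ → Aff k} (hφ : Differentiable ℂ φ) :
    Continuous (deriv fun t => hom (φ t)) :=
  ((diff_hom hφ).contDiff (n := 1)).continuous_deriv le_rfl

lemma fsDensity_nonneg (φ : ℂ → Aff k) (t : ℂ) : 0 ≤ fsDensity φ t := by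
  rw [fsDensity_def, gram_eq (hom_ne _)]
  have := Real.pi_pos
  positivity

lemma continuous_fsDensity {φ : ℂ → Aff k} (hφ : Differentiable ℂ φ) :
    Continuous (fsDensity φ) := by
  have h1 := (diff_hom hφ).continuous
  have h2 := continuous_deriv_hom hφ
  rw [fsDensity_eq]
  apply Continuous.div
  · exact ((h2.norm.pow 2).mul (h1.norm.pow 2)).sub ((h1.inner h2).norm.pow 2)
  · exact continuous_const.mul (h1.norm.pow 4)
  · intro t
    have := norm_pos_iff.2 (hom_ne (φ t))
    have := Real.pi_pos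
    positivity

lemma continuous_density {φ : ℂ → Aff k} (hφ : Differentiable ℂ φ)
    {θ : Hom k → Hom k [⋀^Fin 2]→L[ℝ] ℂ} (hθ : θ ∈ forms11 k) : Continuous (density θ φ) := by
  have h1 := (diff_hom hφ).continuous
  have h2 := continuous_deriv_hom hφ
  exact (continuousOn_sphFun hθ).comp_continuous (h1.prodMk h2) (fun t => ⟨hom_ne _, mem_univ _⟩)

lemma nevanlinnaT_eq {φ : ℂ → Aff k} (hφ : Differentiable ℂ φ) (r : ℝ) :
    nevanlinnaT φ r = ∫ ζ in Metric.ball (0 : ℂ) r, Real.log (r / ‖ζ‖) * fsDensity φ ζ :=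
  nev_eq (continuous_fsDensity hφ) (fsDensity_nonneg φ) r

lemma integrable_density {φ : ℂ → Aff k} (hφ : Differentiable ℂ φ)
    {θ : Hom k → Hom k [⋀^Fin 2]→L[ℝ] ℂ} (hθ : θ ∈ forms11 k) {M : ℝ}
    (hM : ∀ p ∈ sph k, ‖sphFun θ p‖ ≤ M) (r : ℝ) :
    IntegrableOn (fun ζ => (Real.log (r / ‖ζ‖) : ℂ) * density θ φ ζ) (Metric.ball (0 : ℂ) r) := by
  have h1 := (integrable_kernel (continuous_fsDensity hφ) r).const_mul (Real.pi * M)
  refine Integrable.mono' h1 ?_ ?_
  · exact ((Complex.measurable_ofReal.comp (meas_log r)).mul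
      (continuous_density hφ hθ).measurable).aestronglyMeasurable
  · rw [ae_restrict_iff' measurableSet_ball]
    refine Eventually.of_forall fun ζ hζ => ?_
    have h2 := log_nonneg_ball hζ
    rw [norm_mul, Complex.norm_real, Real.norm_of_nonneg h2]
    have h3 := norm_density_le hθ hM φ ζ
    calc _ ≤ Real.log (r / ‖ζ‖) * (Real.pi * M * fsDensity φ ζ) := by gcongr
      _ = _ := by ring

lemma norm_nc_le {φ : ℂ → Aff k} (hφ : Differentiable ℂ φ)
    {θ : Hom k → Hom k [⋀^Fin 2]→L[ℝ] ℂ} (hθ : θ ∈ forms11 k) {M : ℝ} (hM0 : 0 ≤ M)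
    (hM : ∀ p ∈ sph k, ‖sphFun θ p‖ ≤ M) (r : ℝ) :
    ‖nevanlinnaCurrent φ r θ‖ ≤ Real.pi * M := by
  have hT : 0 ≤ nevanlinnaT φ r := by
    rw [nevanlinnaT_eq hφ]
    exact setIntegral_nonneg measurableSet_ball fun ζ hζ =>
      mul_nonneg (log_nonneg_ball hζ) (fsDensity_nonneg φ ζ)
  have h1 : ‖∫ ζ in Metric.ball (0 : ℂ) r, (Real.log (r / ‖ζ‖) : ℂ) * density θ φ ζ‖ ≤
      Real.pi * M * nevanlinnaT φ r := by
    rw [nevanlinnaT_eq hφ, ← integral_const_mul]
    apply norm_integral_le_of_norm_le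
    · exact (integrable_kernel (continuous_fsDensity hφ) r).const_mul (Real.pi * M)
    · rw [ae_restrict_iff' measurableSet_ball]
      refine Eventually.of_forall fun ζ hζ => ?_
      have h2 := log_nonneg_ball hζ
      rw [norm_mul, Complex.norm_real, Real.norm_of_nonneg h2]
      have h3 := norm_density_le hθ hM φ ζ
      calc _ ≤ Real.log (r / ‖ζ‖) * (Real.pi * M * fsDensity φ ζ) := by gcongr
        _ = _ := by ring
  unfold nevanlinnaCurrent
  rw [norm_mul, norm_inv, Complex.norm_real, Real.norm_of_nonneg hT]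
  have hpi := Real.pi_pos
  rcases hT.eq_or_lt with h0 | h0
  · rw [← h0]
    simp
    positivity
  · calc _ ≤ (nevanlinnaT φ r)⁻¹ * (Real.pi * M * nevanlinnaT φ r) := by gcongr
      _ = _ := by field_simp

/-- The continuous function on the compact set `sph` attached to a form. -/
noncomputable def toC (θ : forms11 k) : C(sph k, ℂ) where
  toFun p := sphFun (θ : Hom k → Hom k [⋀^Fin 2]→L[ℝ] ℂ) p.1
  continuous_toFun := by
    refine (continuousOn_sphFun θ.2).comp_continuous continuous_subtype_val (fun p => ?_)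
    refine ⟨?_, mem_univ _⟩
    intro h
    have h2 := p.2.1
    rw [mem_sphere_zero_iff_norm] at h2
    rw [mem_singleton_iff] at h
    rw [h, norm_zero] at h2
    exact zero_ne_one h2

instance : CompactSpace (sph k) := isCompact_iff_compactSpace.1 isCompact_sph

lemma toC_bound (θ : forms11 k) : ∀ p ∈ sph k, ‖sphFun θ p‖ ≤ ‖toC θ‖ :=
  fun p hp => (toC θ).norm_coe_le_norm ⟨p, hp⟩

lemma nc_le {φ : ℂ → Aff k} (hφ : Differentiable ℂ φ) (θ : forms11 k) (r : ℝ) :
    ‖nevanlinnaCurrent φ r θ‖ ≤ Real.pi * ‖toC θ‖ :=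
  norm_nc_le hφ θ.2 (norm_nonneg _) (toC_bound θ) r

lemma nc_add {φ : ℂ → Aff k} (hφ : Differentiable ℂ φ) (θ η : forms11 k) (r : ℝ) :
    nevanlinnaCurrent φ r (θ + η : forms11 k) =
      nevanlinnaCurrent φ r θ + nevanlinnaCurrent φ r η := by
  unfold nevanlinnaCurrent
  rw [← mul_add, ← integral_add (integrable_density hφ θ.2 (toC_bound θ) r)
    (integrable_density hφ η.2 (toC_bound η) r)]
  congr 2
  ext ζ
  rw [density_def, density_def, density_def]
  simp [mul_add]

lemma nc_smul {φ : ℂ → Aff k} (c : ℂ) (θ : forms11 k) (r : ℝ) :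
    nevanlinnaCurrent φ r (c • θ : forms11 k) = c * nevanlinnaCurrent φ r θ := by
  have h : ∫ ζ in Metric.ball (0 : ℂ) r, (Real.log (r / ‖ζ‖) : ℂ) *
      density (c • θ : forms11 k) φ ζ =
      c * ∫ ζ in Metric.ball (0 : ℂ) r, (Real.log (r / ‖ζ‖) : ℂ) * density θ φ ζ := by
    rw [← integral_const_mul]
    refine integral_congr_ae (Eventually.of_forall fun ζ => ?_)
    simp only [density_def]
    simp
    ring
  unfold nevanlinnaCurrent
  rw [h]
  ring

lemma nc_sub {φ : ℂ → Aff k} (hφ : Differentiable ℂ φ) (θ η : forms11 k) (r : ℝ) :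
    nevanlinnaCurrent φ r θ - nevanlinnaCurrent φ r η =
      nevanlinnaCurrent φ r (θ - η : forms11 k) := by
  have : θ - η = θ + (-1 : ℂ) • η := by
    module
  rw [this, nc_add hφ, nc_smul]
  ring

lemma toC_sub (θ η : forms11 k) : toC (θ - η) = toC θ - toC η := by
  ext p
  simp [toC, sphFun]

lemma nc_dist {φ : ℂ → Aff k} (hφ : Differentiable ℂ φ) (θ η : forms11 k) (r : ℝ) :
    dist (nevanlinnaCurrent φ r θ) (nevanlinnaCurrent φ r η) ≤ Real.pi * dist (toC θ) (toC η) := by
  rw [dist_eq_norm, dist_eq_norm, nc_sub hφ, ← toC_sub]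
  exact nc_le hφ _ r

/-- Every sequence of radii has a subsequence along which the Nevanlinna currents converge. -/
theorem exists_limit {φ : ℂ → Aff k} (hφ : Differentiable ℂ φ) (r : ℕ → ℝ) :
    ∃ s : ℕ → ℕ, StrictMono s ∧ ∃ T : forms11 k →ₗ[ℂ] ℂ, ∀ θ : forms11 k,
      Tendsto (fun n => nevanlinnaCurrent φ (r (s n)) θ) atTop (𝓝 (T θ)) := by
  have hpi := Real.pi_pos
  have : Nonempty (range (toC (k := k))) := ⟨⟨toC 0, 0, rfl⟩⟩
  obtain ⟨u, hu⟩ := TopologicalSpace.exists_dense_seq (range (toC (k := k)))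
  choose θ hθ using fun j => (u j).2
  set y : ℕ → ℕ → ℂ := fun n j => nevanlinnaCurrent φ (r n) (θ j) with hy
  have hcomp : IsCompact (Set.pi univ fun j => Metric.closedBall (0 : ℂ) (Real.pi * ‖toC (θ j)‖)) :=
    isCompact_univ_pi fun j => isCompact_closedBall _ _
  have hmem : ∀ n, y n ∈ Set.pi univ fun j => Metric.closedBall (0 : ℂ) (Real.pi * ‖toC (θ j)‖) := by
    intro n j _
    rw [mem_closedBall_zero_iff]
    exact nc_le hφ _ _
  obtain ⟨a, _, s, hs, hlim⟩ := hcomp.isSeqCompact hmem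
  rw [tendsto_pi_nhds] at hlim
  have hcau : ∀ η : forms11 k, ∃ l, Tendsto (fun n => nevanlinnaCurrent φ (r (s n)) η) atTop (𝓝 l) := by
    intro η
    apply cauchySeq_tendsto_of_complete
    rw [Metric.cauchySeq_iff']
    intro ε hε
    obtain ⟨j, hj⟩ := hu.exists_dist_lt ⟨toC η, η, rfl⟩ (show 0 < ε / (4 * Real.pi) by positivity)
    have hj' : dist (toC η) (toC (θ j)) < ε / (4 * Real.pi) := by
      rw [hθ j]
      exact hj
    have hc : CauchySeq (fun n => (y ∘ s) n j) := (hlim j).cauchySeq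
    rw [Metric.cauchySeq_iff'] at hc
    obtain ⟨N, hN⟩ := hc (ε / 4) (by positivity)
    refine ⟨N, fun n hn => ?_⟩
    have h1 := nc_dist hφ η (θ j) (r (s n))
    have h2 := nc_dist hφ η (θ j) (r (s N))
    have h3 : dist (nevanlinnaCurrent φ (r (s n)) (θ j)) (nevanlinnaCurrent φ (r (s N)) (θ j)) <
      ε / 4 := hN n hn
    have h4 : Real.pi * dist (toC η) (toC (θ j)) < ε / 4 := by
      calc _ < Real.pi * (ε / (4 * Real.pi)) := by gcongr
        _ = _ := by field_simp
    have h5 := dist_triangle4 (nevanlinnaCurrent φ (r (s n)) η)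
      (nevanlinnaCurrent φ (r (s n)) (θ j)) (nevanlinnaCurrent φ (r (s N)) (θ j))
      (nevanlinnaCurrent φ (r (s N)) η)
    rw [dist_comm (nevanlinnaCurrent φ (r (s N)) (θ j)) (nevanlinnaCurrent φ (r (s N)) η)] at h5
    linarith
  choose T hT using hcau
  refine ⟨s, hs, { toFun := T, map_add' := ?_, map_smul' := ?_ }, hT⟩
  · intro θ η
    apply tendsto_nhds_unique (hT (θ + η))
    simp only [nc_add hφ]
    exact (hT θ).add (hT η)
  · intro c θ
    apply tendsto_nhds_unique (hT (c • θ))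
    simp only [nc_smul]
    exact (hT θ).const_mul c

end Pool.Agent.H72R3.NC
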