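import Mathlib

/-!
# Nevanlinna currents on projective space

Points of the projective space `ℙ^k` are lines of `ℂ^(k+1)`; `ℂ^k` sits in `ℙ^k` as `z ↦ [1 : z]`,
with hyperplane at infinity `{z₀ = 0}`. Smooth differential forms on `ℙ^k` are given by their
pullbacks to `ℂ^(k+1) ∖ {0}`.
-/

set_option autoImplicit false

namespace Pool.Agent.H72R3.NC

open Set Filter Topology MeasureTheory
open scoped ContDiff

/-- The affine space `ℂ^k`. -/
abbrev Aff (k : ℕ) : Type := EuclideanSpace ℂ (Fin k)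

/-- The space `ℂ^(k+1)` of homogeneous coordinates of `ℙ^k`. -/
abbrev Hom (k : ℕ) : Type := EuclideanSpace ℂ (Fin (k + 1))

/-- The vector `(1, z)` of homogeneous coordinates of the point `z` of `ℂ^k ⊂ ℙ^k`. -/
noncomputable def hom {k : ℕ} (z : Aff k) : Hom k :=
  WithLp.toLp 2 (Fin.cons 1 (fun i => z i))

/-- Alternating real `2`-forms on `ℂ^(k+1)` with complex values. -/
abbrev Alt2 (k : ℕ) : Type := Hom k [⋀^Fin 2]→L[ℝ] ℂ

/-- The value `β(v, w)`. -/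
noncomputable def ev {k : ℕ} (β : Alt2 k) (v w : Hom k) : ℂ := β ![v, w]

/-- The vector `c v`. -/
noncomputable def cmul {k : ℕ} (c : ℂ) (v : Hom k) : Hom k := c • v

/-- `θ` is smooth (of class `C^∞` in the real sense) on `ℂ^(k+1) ∖ {0}`. -/
def IsSmooth {k : ℕ} (θ : Hom k → Alt2 k) : Prop := ContDiffOn ℝ ∞ θ {0}ᶜ

/-- `θ` is of type `(1,1)` at `z`. -/
def IsType11 {k : ℕ} (θ : Hom k → Alt2 k) (z : Hom k) : Prop :=
  ∀ v w : Hom k, ev (θ z) (cmul Complex.I v) (cmul Complex.I w) = ev (θ z) v w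

/-- `θ` vanishes on the directions of the fibres of `ℂ^(k+1) ∖ {0} → ℙ^k` at `z`. -/
def IsHorizontal {k : ℕ} (θ : Hom k → Alt2 k) (z : Hom k) : Prop :=
  ∀ (c : ℂ) (w : Hom k), ev (θ z) (cmul c z) w = 0

/-- `θ` is invariant under the scalings `z ↦ c z` at `z`. -/
def IsScalingInvariant {k : ℕ} (θ : Hom k → Alt2 k) (z : Hom k) : Prop :=
  ∀ c : ℂ, c ≠ 0 → ∀ v w : Hom k, ev (θ (cmul c z)) (cmul c v) (cmul c w) = ev (θ z) v w

/-- A smooth complex valued differential form of bidegree `(1,1)` on `ℙ^k`, given by its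
pullback to `ℂ^(k+1) ∖ {0}` (and the value `0` at the origin): a smooth alternating `2`-form
which is of type `(1,1)`, vanishes on the directions of the fibres of `ℂ^(k+1) ∖ {0} → ℙ^k` and is
invariant under the scalings `z ↦ c z`. -/
def IsForm11 {k : ℕ} (θ : Hom k → Alt2 k) : Prop :=
  θ 0 = 0 ∧ IsSmooth θ ∧ (∀ z, z ≠ 0 → IsType11 θ z) ∧ (∀ z, z ≠ 0 → IsHorizontal θ z) ∧
    (∀ z, z ≠ 0 → IsScalingInvariant θ z)

/-- The derivative at `ζ` of `t ↦ (1, φ(t))`. -/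
noncomputable def vel {k : ℕ} (φ : ℂ → Aff k) (ζ : ℂ) : Hom k :=
  deriv (fun t => hom (φ t)) ζ

/-- The function `u` with `φ^* θ = u dx ∧ dy`, for a holomorphic curve `φ : ℂ → ℂ^k ⊂ ℙ^k`
(`x + i y` is the coordinate of `ℂ`). -/
noncomputable def density {k : ℕ} (θ : Hom k → Alt2 k) (φ : ℂ → Aff k) (ζ : ℂ) : ℂ :=
  ev (θ (hom (φ ζ))) (vel φ ζ) (cmul Complex.I (vel φ ζ))

/-- The norm `‖v‖` of a vector of `ℂ^(k+1)`. -/
noncomputable def nrm {k : ℕ} (v : Hom k) : ℝ := ‖v‖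

/-- The absolute value of the hermitian product of two vectors of `ℂ^(k+1)`. -/
noncomputable def absInner {k : ℕ} (v w : Hom k) : ℝ := ‖inner ℂ v w‖

/-- The function `u` with `φ^* ω = u dx ∧ dy` for the Fubini-Study form
`ω = (i / 2π) ∂∂̄ log ‖z‖²` of `ℙ^k`. -/
noncomputable def fsDensity {k : ℕ} (φ : ℂ → Aff k) (ζ : ℂ) : ℝ :=
  (nrm (vel φ ζ) ^ 2 * nrm (hom (φ ζ)) ^ 2 - absInner (hom (φ ζ)) (vel φ ζ) ^ 2) /
    (Real.pi * nrm (hom (φ ζ)) ^ 4)

/-- The Nevanlinna characteristic `T(r) = ∫_0^r dt/t ∫_{|ζ|<t} φ^* ω` of `φ : ℂ → ℂ^k ⊂ ℙ^k`. -/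
noncomputable def nevanlinnaT {k : ℕ} (φ : ℂ → Aff k) (r : ℝ) : ℝ :=
  ∫ t in Ioo 0 r, (1 / t) * ∫ ζ in Metric.ball (0 : ℂ) t, fsDensity φ ζ

/-- The Nevanlinna current `⟨τ_r, θ⟩ = T(r)⁻¹ ∫_{|ζ|<r} log (r / |ζ|) φ^* θ`. -/
noncomputable def nevanlinnaCurrent {k : ℕ} (φ : ℂ → Aff k) (r : ℝ) (θ : Hom k → Alt2 k) : ℂ :=
  (nevanlinnaT φ r : ℂ)⁻¹ *
    ∫ ζ in Metric.ball (0 : ℂ) r, (Real.log (r / ‖ζ‖) : ℂ) * density θ φ ζ

/-- `T` is a cluster point of the Nevanlinna currents of the holomorphic curve `φ : ℂ → ℂ^k`: the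
weak limit of `τ_{r_n}` for some sequence `r_n → ∞`. -/
def IsClusterPoint {k : ℕ} (φ : ℂ → Aff k) (T : (Hom k → Alt2 k) → ℂ) : Prop :=
  ∃ r : ℕ → ℝ, Tendsto r atTop atTop ∧
    ∀ θ, IsForm11 θ → Tendsto (fun n => nevanlinnaCurrent φ (r n) θ) atTop (𝓝 (T θ))

/-- The current `T` is supported in the hyperplane at infinity `{z₀ = 0}`: it vanishes on the test
forms with compact support in `ℂ^k`, that is, the forms whose support is contained in
`{‖z‖ ≤ R |z₀|}` for some `R`. -/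
def SupportedAtInfinity {k : ℕ} (T : (Hom k → Alt2 k) → ℂ) : Prop :=
  ∀ (θ : Hom k → Alt2 k) (R : ℝ), IsForm11 θ → (∀ z : Hom k, R * ‖z 0‖ < nrm z → θ z = 0) → T θ = 0

/-- `Z` is a holomorphic vector field on `ℂ^k`. -/
def IsHolomorphicField {k : ℕ} (Z : Aff k → Aff k) : Prop := Differentiable ℂ Z

/-- `Z = h P` for a holomorphic function `h` and a polynomial vector field `P` on `ℂ^k`. -/
def IsHolomorphicMultipleOfPolynomial {k : ℕ} (Z : Aff k → Aff k) : Prop :=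
  ∃ (h : Aff k → ℂ) (P : Fin k → MvPolynomial (Fin k) ℂ), Differentiable ℂ h ∧
    ∀ (z : Aff k) (i : Fin k), Z z i = h z * MvPolynomial.eval (fun j => z j) (P i)

/-- `γ` is an integral curve of `Z` on `U`. -/
def IsIntegralCurveOn {k : ℕ} (Z : Aff k → Aff k) (γ : ℂ → Aff k) (U : Set ℂ) : Prop :=
  ∀ t ∈ U, HasDerivAt γ (Z (γ t)) t

/-- `L` is a leaf of the vector field `Z` and `φ : ℂ → L` is a biholomorphic map onto `L`
(in particular it is the uniformization, that is the universal covering, of `L`): `φ` is injective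
and an integral curve of `Z` without zeros of `Z`, `L` is its image and it is a maximal integral
curve: it contains every integral curve of `Z`, parametrised by a connected open subset of `ℂ`,
which meets it. -/
def IsLeafUniformizedBy {k : ℕ} (Z : Aff k → Aff k) (L : Set (Aff k)) (φ : ℂ → Aff k) : Prop :=
  IsIntegralCurveOn Z φ univ ∧ (∀ t, Z (φ t) ≠ 0) ∧ Function.Injective φ ∧ range φ = L ∧
    ∀ (U : Set ℂ) (γ : ℂ → Aff k), IsOpen U → IsPreconnected U →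
      IsIntegralCurveOn Z γ U → (∃ t ∈ U, γ t ∈ L) → ∀ t ∈ U, γ t ∈ L

/-- No nonzero polynomial vanishes on `L`: the set `L` is not contained in any proper algebraic
subset of `ℂ^k`. -/
def IsZariskiDense {k : ℕ} (L : Set (Aff k)) : Prop :=
  ∀ P : MvPolynomial (Fin k) ℂ, (∀ z ∈ L, MvPolynomial.eval (fun j => z j) P = 0) → P = 0

end Pool.Agent.H72R3.NC
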