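import Pool.Agent.H72R3.NC.Cluster2
import Pool.Agent.H72R3.NC.Alg

/-!
# Estimates along the leaf
-/

set_option autoImplicit false

namespace Pool.Agent.H72R3.NC

open Set Filter Topology MeasureTheory
open scoped ContDiff ENNReal

lemma lint_exp_abs : ∫⁻ x : ℝ, ENNReal.ofReal (Real.exp (-|x|)) = ENNReal.ofReal 2 := by
  have h1 : ∫⁻ x in Ioi (0 : ℝ), ENNReal.ofReal (Real.exp (-|x|)) = ENNReal.ofReal 1 := by
    have e : ∫⁻ x in Ioi (0 : ℝ), ENNReal.ofReal (Real.exp (-|x|)) =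
        ∫⁻ x in Ioi (0 : ℝ), ENNReal.ofReal (Real.exp (-x)) := by
      apply setLIntegral_congr_fun measurableSet_Ioi
      intro x hx
      simp only
      rw [abs_of_pos hx]
    rw [e, ← ofReal_integral_eq_lintegral_ofReal (integrableOn_exp_neg_Ioi 0)
      (Eventually.of_forall fun x => (Real.exp_pos _).le), integral_exp_neg_Ioi_zero]
  have h2 : ∫⁻ x in Iic (0 : ℝ), ENNReal.ofReal (Real.exp (-|x|)) = ENNReal.ofReal 1 := by
    have e : ∫⁻ x in Iic (0 : ℝ), ENNReal.ofReal (Real.exp (-|x|)) =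
        ∫⁻ x in Iic (0 : ℝ), ENNReal.ofReal (Real.exp x) := by
      apply setLIntegral_congr_fun measurableSet_Iic
      intro x hx
      simp only
      rw [abs_of_nonpos hx, neg_neg]
    rw [e, ← ofReal_integral_eq_lintegral_ofReal (integrableOn_exp_Iic 0)
      (Eventually.of_forall fun x => (Real.exp_pos _).le), integral_exp_Iic_zero]
  have h3 := lintegral_add_compl (μ := (volume : Measure ℝ))
    (fun x : ℝ => ENNReal.ofReal (Real.exp (-|x|))) (measurableSet_Ioi (a := (0 : ℝ)))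
  rw [← h3, compl_Ioi, h1, h2, ← ENNReal.ofReal_add (by norm_num) (by norm_num)]
  norm_num

lemma lint_strip {t : ℝ} (ht : 0 ≤ t) :
    ∫⁻ ζ in Metric.ball (0 : ℂ) t, ENNReal.ofReal (Real.exp (-|ζ.re|)) ≤ ENNReal.ofReal (4 * t) := by
  have hmp := Complex.volume_preserving_equiv_real_prod
  have hsub : Metric.ball (0 : ℂ) t ⊆ Complex.measurableEquivRealProd ⁻¹' (univ ×ˢ Icc (-t) t) := by
    intro ζ hζ
    rw [mem_ball_zero_iff] at hζ
    refine ⟨mem_univ _, ?_⟩
    have := Complex.abs_im_le_norm ζ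
    exact abs_le.1 (this.trans hζ.le)
  calc ∫⁻ ζ in Metric.ball (0 : ℂ) t, ENNReal.ofReal (Real.exp (-|ζ.re|))
      ≤ ∫⁻ ζ in Complex.measurableEquivRealProd ⁻¹' (univ ×ˢ Icc (-t) t),
          (fun p : ℝ × ℝ => ENNReal.ofReal (Real.exp (-|p.1|))) (Complex.measurableEquivRealProd ζ) :=
        lintegral_mono_set hsub
    _ = ∫⁻ p in univ ×ˢ Icc (-t) t, ENNReal.ofReal (Real.exp (-|p.1|)) :=
        hmp.setLIntegral_comp_preimage_emb Complex.measurableEquivRealProd.measurableEmbedding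
          (fun p : ℝ × ℝ => ENNReal.ofReal (Real.exp (-|p.1|))) (univ ×ˢ Icc (-t) t)
    _ = (∫⁻ x : ℝ, ENNReal.ofReal (Real.exp (-|x|))) * ∫⁻ y in Icc (-t) t, (1 : ℝ≥0∞) := by
        rw [Measure.volume_eq_prod, ← Measure.prod_restrict, Measure.restrict_univ,
          ← lintegral_prod_mul]
        · simp
        · fun_prop
        · fun_prop
    _ = ENNReal.ofReal (4 * t) := by
        rw [lint_exp_abs, setLIntegral_const, one_mul, Real.volume_Icc, ← ENNReal.ofReal_mul]
        · congr 1; ring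
        · norm_num

/-- Upper bound for the Nevanlinna characteristic. -/
lemma nevT_le {k : ℕ} {φ : ℂ → Aff k} (hφ : Differentiable ℂ φ) {C : ℝ} (hC : 0 ≤ C)
    (h : ∀ ζ, fsDensity φ ζ ≤ C * Real.exp (-|ζ.re|)) {r : ℝ} (hr : 0 ≤ r) :
    nevanlinnaT φ r ≤ 4 * C * r := by
  have hA : ∀ t : ℝ, 0 ≤ t → ∫ ζ in Metric.ball (0 : ℂ) t, fsDensity φ ζ ≤ 4 * C * t := by
    intro t ht
    rw [integral_eq_lintegral_of_nonneg_ae (Eventually.of_forall (fsDensity_nonneg φ))
      (continuous_fsDensity hφ).aestronglyMeasurable]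
    apply ENNReal.toReal_le_of_le_ofReal (by positivity)
    calc ∫⁻ ζ in Metric.ball (0 : ℂ) t, ENNReal.ofReal (fsDensity φ ζ)
        ≤ ∫⁻ ζ in Metric.ball (0 : ℂ) t, ENNReal.ofReal C * ENNReal.ofReal (Real.exp (-|ζ.re|)) := by
          apply lintegral_mono
          intro ζ
          simp only
          rw [← ENNReal.ofReal_mul hC]
          exact ENNReal.ofReal_le_ofReal (h ζ)
      _ = ENNReal.ofReal C * ∫⁻ ζ in Metric.ball (0 : ℂ) t, ENNReal.ofReal (Real.exp (-|ζ.re|)) := by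
          rw [lintegral_const_mul]
          fun_prop
      _ ≤ ENNReal.ofReal C * ENNReal.ofReal (4 * t) := by
          gcongr
          exact lint_strip ht
      _ = ENNReal.ofReal (4 * C * t) := by
          rw [← ENNReal.ofReal_mul hC]
          congr 1
          ring
  unfold nevanlinnaT
  have hb : ∀ t ∈ Ioo 0 r, ‖(1 / t) * ∫ ζ in Metric.ball (0 : ℂ) t, fsDensity φ ζ‖ ≤ 4 * C := by
    intro t ht
    have ht0 : 0 < t := ht.1
    have h1 := hA t ht0.le
    have h2 : 0 ≤ ∫ ζ in Metric.ball (0 : ℂ) t, fsDensity φ ζ :=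
      setIntegral_nonneg measurableSet_ball fun ζ _ => fsDensity_nonneg φ ζ
    rw [Real.norm_of_nonneg (by positivity)]
    calc (1 / t) * ∫ ζ in Metric.ball (0 : ℂ) t, fsDensity φ ζ ≤ (1 / t) * (4 * C * t) := by gcongr
      _ = 4 * C := by field_simp
  have h3 := norm_setIntegral_le_of_norm_le_const (μ := (volume : Measure ℝ))
    (by rw [Real.volume_Ioo]; exact ENNReal.ofReal_lt_top) hb
  have h4 : (volume : Measure ℝ).real (Ioo 0 r) = r := by
    rw [Measure.real, Real.volume_Ioo, sub_zero, ENNReal.toReal_ofReal hr]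
  rw [h4] at h3
  exact (le_abs_self _).trans h3

/-- Lower bound for the kernel integrals. -/
lemma kernel_ge {u : ℂ → ℝ} (hu : Continuous u) (hu0 : ∀ ζ, 0 ≤ u ζ) {c : ℝ} (hc : 0 ≤ c)
    (h : ∀ ζ : ℂ, |ζ.re| ≤ 1 → c ≤ u ζ) {r : ℝ} (hr : 8 ≤ r) :
    c * (r / 2) ≤ ∫ ζ in Metric.ball (0 : ℂ) r, Real.log (r / ‖ζ‖) * u ζ := by
  set B : Set ℂ := Icc (-1) 1 ×ℂ Icc (-(r / 8)) (r / 8) with hB
  have hBnorm : ∀ ζ ∈ B, ‖ζ‖ ≤ r / 4 := by
    intro ζ hζ
    obtain ⟨h1, h2⟩ := hζ
    have h3 : |ζ.re| ≤ 1 := abs_le.2 h1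
    have h4 : |ζ.im| ≤ r / 8 := abs_le.2 h2
    have h5 := Complex.norm_le_abs_re_add_abs_im ζ
    linarith
  have hBmeas : MeasurableSet B := by
    rw [hB]
    exact Complex.measurableEquivRealProd.measurable (measurableSet_Icc.prod measurableSet_Icc)
  have hBsub : B ⊆ Metric.ball (0 : ℂ) r := by
    intro ζ hζ
    rw [mem_ball_zero_iff]
    linarith [hBnorm ζ hζ]
  have hvol : (volume : Measure ℂ).real B = r / 2 := by
    have hmp := Complex.volume_preserving_equiv_real_prod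
    have e : B = Complex.measurableEquivRealProd ⁻¹' (Icc (-1) 1 ×ˢ Icc (-(r / 8)) (r / 8)) := rfl
    rw [Measure.real, e, hmp.measure_preimage (measurableSet_Icc.prod measurableSet_Icc).nullMeasurableSet,
      Measure.volume_eq_prod, Measure.prod_prod, Real.volume_Icc, Real.volume_Icc,
      ← ENNReal.ofReal_mul (by norm_num), ENNReal.toReal_ofReal (by nlinarith)]
    ring
  have hlog : ∀ ζ ∈ B, ζ ≠ 0 → 1 ≤ Real.log (r / ‖ζ‖) := by
    intro ζ hζ h0
    have hn : 0 < ‖ζ‖ := norm_pos_iff.2 h0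
    have h1 := hBnorm ζ hζ
    rw [Real.le_log_iff_exp_le (by positivity)]
    have h2 : Real.exp 1 < 4 := by
      have := Real.exp_one_lt_d9
      linarith
    have h3 : 4 ≤ r / ‖ζ‖ := by
      rw [le_div_iff₀ hn]
      linarith
    linarith
  have hint := integrable_kernel hu r
  have h0 : ∀ᵐ ζ : ℂ, ζ ≠ 0 := by
    rw [ae_iff]
    simp
  calc c * (r / 2) = ∫ ζ in B, c := by
        rw [setIntegral_const, hvol, smul_eq_mul, mul_comm]
    _ ≤ ∫ ζ in B, Real.log (r / ‖ζ‖) * u ζ := by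
        apply setIntegral_mono_on_ae
        · exact integrableOn_const (by
            rw [← lt_top_iff_ne_top]
            exact (measure_mono hBsub).trans_lt measure_ball_lt_top)
        · exact hint.mono_set hBsub
        · exact hBmeas
        · filter_upwards [h0] with ζ hζ hζB
          have h1 := hlog ζ hζB hζ
          have h2 := h ζ (abs_le.2 hζB.1)
          nlinarith [hu0 ζ]
    _ ≤ _ := by
        apply setIntegral_mono_set hint
        · rw [EventuallyLE, ae_restrict_iff' measurableSet_ball]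
          refine Eventually.of_forall fun ζ hζ => ?_
          exact mul_nonneg (log_nonneg_ball hζ) (hu0 ζ)
        · exact hBsub.eventuallyLE

end Pool.Agent.H72R3.NC
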