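import Pool.Agent.H72R3.NC.Series

/-!
# The vector field and its leaf
-/

set_option autoImplicit false

namespace Pool.Agent.H72R3.NC

open Set Filter Topology MeasureTheory

/-- coefficients of `f` -/
def wF : ℕ → ℝ := fun _ => 1
/-- coefficients of `g` -/
noncomputable def wG : ℕ → ℝ := fun n => dlt ^ (n + 1)

lemma dlt_pow_le (n : ℕ) : dlt ^ (n + 1) ≤ dlt := by
  have h1 := dlt_pos
  have h2 := dlt_lt
  calc dlt ^ (n + 1) ≤ dlt ^ 1 := pow_le_pow_of_le_one h1.le (by linarith) (by omega)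
    _ = dlt := pow_one _

lemma wF_le (n : ℕ) : |wF n| ≤ 1 := by simp [wF]

lemma wG_le (n : ℕ) : |wG n| ≤ 1 := by
  have h1 := dlt_pos
  have h2 := dlt_lt
  have h3 := dlt_pow_le n
  unfold wG
  rw [abs_of_pos (by positivity)]
  linarith

/-- the restriction of a series to the leaf -/
noncomputable def ex (w : ℕ → ℝ) (t : ℂ) : ℂ :=
  ∑' n, ((w n / (Nat.factorial (eN n) : ℝ) : ℝ) : ℂ) * Complex.exp (((dlt ^ (n + 1) : ℝ) : ℂ) * t)

lemma ser_exp (w : ℕ → ℝ) (t : ℂ) :
    ser w (Complex.exp t, Complex.exp (-(√2 : ℝ) * t)) = ex w t := by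
  unfold ser ex
  congr 1
  ext n
  rw [← eP_eq n]
  simp only
  rw [← Complex.exp_nat_mul, ← Complex.exp_nat_mul, ← Complex.exp_add]
  congr 2
  push_cast
  ring

/-- `∑ 1 / N_n!` -/
noncomputable def E0 : ℝ := ∑' n, (1 : ℝ) ^ (eN n) / (Nat.factorial (eN n) : ℝ)

lemma E0_nonneg : 0 ≤ E0 := tsum_nonneg fun n => by positivity

lemma exp_le (n : ℕ) (t : ℂ) : ‖Complex.exp (((dlt ^ (n + 1) : ℝ) : ℂ) * t)‖ ≤
    Real.exp (dlt * |t.re|) := by
  rw [Complex.norm_exp, Complex.re_ofReal_mul]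
  apply Real.exp_le_exp.2
  have h1 := dlt_pos
  have h3 := dlt_pow_le n
  have h4 := le_abs_self t.re
  have h5 := abs_nonneg t.re
  have h6 : 0 < dlt ^ (n + 1) := by positivity
  nlinarith

lemma exterm_le {w : ℕ → ℝ} (hw : ∀ n, |w n| ≤ 1) (t : ℂ) (n : ℕ) :
    ‖((w n / (Nat.factorial (eN n) : ℝ) : ℝ) : ℂ) * Complex.exp (((dlt ^ (n + 1) : ℝ) : ℂ) * t)‖ ≤
      (1 : ℝ) ^ (eN n) / (Nat.factorial (eN n) : ℝ) * Real.exp (dlt * |t.re|) := by
  rw [norm_mul, one_pow]
  exact mul_le_mul (coef_le hw n) (exp_le n t) (norm_nonneg _) (by positivity)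

lemma norm_ex_le {w : ℕ → ℝ} (hw : ∀ n, |w n| ≤ 1) (t : ℂ) :
    ‖ex w t‖ ≤ E0 * Real.exp (dlt * |t.re|) := by
  unfold ex E0
  rw [← tsum_mul_right]
  exact tsum_of_norm_bounded ((summable_N 1).mul_right _).hasSum (exterm_le hw t)

lemma summable_ex {w : ℕ → ℝ} (hw : ∀ n, |w n| ≤ 1) (t : ℂ) :
    Summable fun n => ((w n / (Nat.factorial (eN n) : ℝ) : ℝ) : ℂ) *
      Complex.exp (((dlt ^ (n + 1) : ℝ) : ℂ) * t) :=
  Summable.of_norm_bounded ((summable_N 1).mul_right _) (exterm_le hw t)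

lemma hasDerivAt_ex (t : ℂ) : HasDerivAt (ex wF) (ex wG t) t := by
  set R : ℝ := ‖t‖ + 1 with hR
  have ht : t ∈ Metric.ball (0 : ℂ) R := by
    rw [mem_ball_zero_iff, hR]; linarith
  set g : ℕ → ℂ → ℂ := fun n t => ((wF n / (Nat.factorial (eN n) : ℝ) : ℝ) : ℂ) *
      Complex.exp (((dlt ^ (n + 1) : ℝ) : ℂ) * t) with hg
  set g' : ℕ → ℂ → ℂ := fun n t => ((wG n / (Nat.factorial (eN n) : ℝ) : ℝ) : ℂ) *
      Complex.exp (((dlt ^ (n + 1) : ℝ) : ℂ) * t) with hg'
  have hd : ∀ n y, y ∈ Metric.ball (0 : ℂ) R → HasDerivAt (g n) (g' n y) y := by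
    intro n y _
    have h1 : HasDerivAt (fun y : ℂ => ((dlt ^ (n + 1) : ℝ) : ℂ) * y) ((dlt ^ (n + 1) : ℝ) : ℂ) y := by
      simpa using (hasDerivAt_id y).const_mul ((dlt ^ (n + 1) : ℝ) : ℂ)
    have h2 := (h1.cexp).const_mul ((wF n / (Nat.factorial (eN n) : ℝ) : ℝ) : ℂ)
    refine h2.congr_deriv ?_
    show _ = ((wG n / (Nat.factorial (eN n) : ℝ) : ℝ) : ℂ) * _
    unfold wF wG
    push_cast
    ring
  have hb : ∀ n y, y ∈ Metric.ball (0 : ℂ) R → ‖g' n y‖ ≤
      (1 : ℝ) ^ (eN n) / (Nat.factorial (eN n) : ℝ) * Real.exp (dlt * R) := by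
    intro n y hy
    rw [mem_ball_zero_iff] at hy
    refine (exterm_le wG_le y n).trans ?_
    have h1 := dlt_pos
    have h2 := Complex.abs_re_le_norm y
    gcongr
    linarith
  have h := hasDerivAt_tsum_of_isPreconnected ((summable_N 1).mul_right (Real.exp (dlt * R)))
    Metric.isOpen_ball (convex_ball (0 : ℂ) R).isPreconnected hd hb ht (summable_ex wF_le t) ht
  exact h

/-- The vector field `(g(x, y), x, -√2 y)` in the coordinates `(z, x, y)` of `ℂ³`. -/
noncomputable def fld (z : Aff 3) : Aff 3 := !₂[ser wG (z 1, z 2), z 1, -(√2 : ℝ) * z 2]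

/-- The leaf `(f(e^t, e^{-√2 t}), e^t, e^{-√2 t})`. -/
noncomputable def curve (t : ℂ) : Aff 3 :=
  !₂[ser wF (Complex.exp t, Complex.exp (-(√2 : ℝ) * t)), Complex.exp t, Complex.exp (-(√2 : ℝ) * t)]

lemma curve0 (t : ℂ) : curve t 0 = ex wF t := by
  rw [← ser_exp]; rfl
lemma curve1 (t : ℂ) : curve t 1 = Complex.exp t := rfl
lemma curve2 (t : ℂ) : curve t 2 = Complex.exp (-(√2 : ℝ) * t) := rfl

lemma differentiable_fld : Differentiable ℂ fld := by
  rw [differentiable_euclidean]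
  have h0 : Differentiable ℂ fun z : Aff 3 => z 1 := by fun_prop
  have h1 : Differentiable ℂ fun z : Aff 3 => z 2 := by fun_prop
  intro i
  fin_cases i
  · exact (differentiable_ser wG_le).comp (h0.prodMk h1)
  · exact h0
  · exact h1.const_mul _

lemma hasDerivAt_euc {k : ℕ} {f : ℂ → EuclideanSpace ℂ (Fin k)} {f' : EuclideanSpace ℂ (Fin k)}
    {t : ℂ} : HasDerivAt f f' t ↔ ∀ i, HasDerivAt (fun s => f s i) (f' i) t := by
  constructor
  · intro h i
    exact (EuclideanSpace.proj (𝕜 := ℂ) i).hasFDerivAt.comp_hasDerivAt t h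
  · intro h
    have h2 : HasDerivAt (fun s i => f s i) (fun i => f' i) t := hasDerivAt_pi.2 h
    exact (EuclideanSpace.equiv (Fin k) ℂ).symm.hasFDerivAt.comp_hasDerivAt t h2

lemma hasDerivAt_exp2 (t : ℂ) : HasDerivAt (fun t : ℂ => Complex.exp (-(√2 : ℝ) * t))
    (-(√2 : ℝ) * Complex.exp (-(√2 : ℝ) * t)) t := by
  have h1 : HasDerivAt (fun y : ℂ => (-(√2 : ℝ) : ℂ) * y) (-(√2 : ℝ) : ℂ) t := by
    simpa using (hasDerivAt_id t).const_mul (-(√2 : ℝ) : ℂ)
  have := h1.cexp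
  rwa [mul_comm] at this

lemma hasDerivAt_curve (t : ℂ) : HasDerivAt curve (fld (curve t)) t := by
  rw [hasDerivAt_euc]
  intro i
  fin_cases i
  · have h := hasDerivAt_ex t
    rw [← ser_exp] at h
    exact h.congr_of_eventuallyEq (Eventually.of_forall curve0)
  · exact Complex.hasDerivAt_exp t
  · exact hasDerivAt_exp2 t

lemma fld_curve_ne (t : ℂ) : fld (curve t) ≠ 0 := by
  intro h
  have : fld (curve t) 1 = 0 := by rw [h]; rfl
  exact Complex.exp_ne_zero t this

lemma curve_injective : Function.Injective curve := by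
  intro s t h
  have h0 : Complex.exp s = Complex.exp t := congrArg (fun z : Aff 3 => z 1) h
  have h1 : Complex.exp (-(√2 : ℝ) * s) = Complex.exp (-(√2 : ℝ) * t) :=
    congrArg (fun z : Aff 3 => z 2) h
  obtain ⟨m, hm⟩ := Complex.exp_eq_exp_iff_exists_int.1 h0
  obtain ⟨n, hn⟩ := Complex.exp_eq_exp_iff_exists_int.1 h1
  have hI : (2 * Real.pi * Complex.I : ℂ) ≠ 0 := Complex.two_pi_I_ne_zero
  have h2 : (-(√2 : ℝ) : ℂ) * m = n := by
    have h3 : (-(√2 : ℝ) : ℂ) * m * (2 * Real.pi * Complex.I) = n * (2 * Real.pi * Complex.I) := by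
      rw [hm] at hn
      linear_combination hn
    exact mul_right_cancel₀ hI h3
  have h4 : -√2 * (m : ℝ) = n := by exact_mod_cast h2
  have hm0 : m = 0 := by
    by_contra hne
    have hne' : (m : ℝ) ≠ 0 := by exact_mod_cast hne
    have : √2 = ((-n / m : ℚ) : ℝ) := by
      push_cast
      field_simp
      linarith
    exact irrational_sqrt_two ⟨_, this.symm⟩
  rw [hm0] at hm
  simpa using hm

lemma const_of_deriv_zero {U : Set ℂ} (hU : IsOpen U) (hc : IsPreconnected U) {f : ℂ → ℂ}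
    (hf : ∀ t ∈ U, HasDerivAt f 0 t) {a b : ℂ} (ha : a ∈ U) (hb : b ∈ U) : f a = f b := by
  have h1 : DifferentiableOn ℂ f U := fun t ht => (hf t ht).differentiableAt.differentiableWithinAt
  exact hU.is_const_of_deriv_eq_zero hc h1 (fun t ht => (hf t ht).deriv) ha hb

lemma isLeaf : IsLeafUniformizedBy fld (range curve) curve := by
    refine ⟨fun t _ => hasDerivAt_curve t, fld_curve_ne, curve_injective, rfl, ?_⟩
    rintro U γ hU hc hγ ⟨t₀, ht₀, s₀, hs₀⟩ t ht
    have hd : ∀ t ∈ U, ∀ i, HasDerivAt (fun s => γ s i) (fld (γ t) i) t :=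
      fun t ht => hasDerivAt_euc.1 (hγ t ht)
    have e0 : ∀ t ∈ U, γ t 1 = Complex.exp (t - t₀ + s₀) := by
      intro t ht
      have h1 : ∀ t ∈ U, HasDerivAt (fun s => γ s 1 * Complex.exp (-s)) 0 t := by
        intro t ht
        have h2 := (hd t ht 1).mul ((hasDerivAt_neg t).cexp)
        refine h2.congr_deriv ?_
        have : fld (γ t) 1 = γ t 1 := rfl
        rw [this]
        ring
      have h3 := const_of_deriv_zero hU hc h1 ht ht₀
      have h4 : γ t₀ 1 = Complex.exp s₀ := by rw [← hs₀]; rfl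
      simp only [h4] at h3
      calc γ t 1 = (γ t 1 * Complex.exp (-t)) * Complex.exp t := by
            rw [mul_assoc, ← Complex.exp_add, neg_add_cancel, Complex.exp_zero, mul_one]
        _ = _ := by
            rw [h3, ← Complex.exp_add, ← Complex.exp_add]
            congr 1
            ring
    have e1 : ∀ t ∈ U, γ t 2 = Complex.exp (-(√2 : ℝ) * (t - t₀ + s₀)) := by
      intro t ht
      have h1 : ∀ t ∈ U, HasDerivAt (fun s => γ s 2 * Complex.exp ((√2 : ℝ) * s)) 0 t := by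
        intro t ht
        have h5 : HasDerivAt (fun y : ℂ => ((√2 : ℝ) : ℂ) * y) ((√2 : ℝ) : ℂ) t := by
          simpa using (hasDerivAt_id t).const_mul ((√2 : ℝ) : ℂ)
        have h2 := (hd t ht 2).mul (h5.cexp)
        refine h2.congr_deriv ?_
        have : fld (γ t) 2 = -(√2 : ℝ) * γ t 2 := rfl
        rw [this]
        ring
      have h3 := const_of_deriv_zero hU hc h1 ht ht₀
      have h4 : γ t₀ 2 = Complex.exp (-(√2 : ℝ) * s₀) := by rw [← hs₀]; rfl
      simp only [h4] at h3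
      calc γ t 2 = (γ t 2 * Complex.exp ((√2 : ℝ) * t)) * Complex.exp (-(√2 : ℝ) * t) := by
            rw [mul_assoc, ← Complex.exp_add, neg_mul, add_neg_cancel, Complex.exp_zero, mul_one]
        _ = _ := by
            rw [h3, ← Complex.exp_add, ← Complex.exp_add]
            congr 1
            ring
    have e2 : γ t 0 = ex wF (t - t₀ + s₀) := by
      have h1 : ∀ t ∈ U, HasDerivAt (fun s => γ s 0 - ex wF (s - t₀ + s₀)) 0 t := by
        intro t ht
        have h5 : HasDerivAt (fun s : ℂ => s - t₀ + s₀) 1 t := by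
          simpa using ((hasDerivAt_id t).sub_const t₀).add_const s₀
        have h6 := (hasDerivAt_ex (t - t₀ + s₀)).comp t h5
        have h2 := (hd t ht 0).sub h6
        refine h2.congr_deriv ?_
        have : fld (γ t) 0 = ser wG (γ t 1, γ t 2) := rfl
        rw [this, e0 t ht, e1 t ht, ser_exp]
        ring
      have h3 := const_of_deriv_zero hU hc h1 ht ht₀
      have h4 : γ t₀ 0 = ex wF s₀ := by rw [← hs₀, curve0]
      simp only [h4, sub_self, zero_add] at h3
      exact sub_eq_zero.1 h3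
    refine ⟨t - t₀ + s₀, ?_⟩
    ext i
    fin_cases i
    · exact (curve0 _).trans e2.symm
    · exact (e0 t ht).symm
    · exact (e1 t ht).symm

end Pool.Agent.H72R3.NC
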