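import Pool.Agent.H72R3.NC.TestForm
import Pool.Agent.H72R3.NC.Cluster2
import Pool.Agent.H72R3.NC.Alg

/-!
# The cluster points charge the affine space
-/

set_option autoImplicit false

namespace Pool.Agent.H72R3.NC

open Set Filter Topology MeasureTheory
open scoped ContDiff ENNReal

lemma differentiable_curve : Differentiable ℂ curve :=
  fun t => (hasDerivAt_curve t).differentiableAt

/-- the constant -/
noncomputable def c0 : ℝ := Real.exp (-2) / (8 * C1)

lemma c0_pos : 0 < c0 := by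
  have := C1_pos
  have := Real.exp_pos (-2)
  unfold c0
  positivity

lemma nc_lower {r : ℝ} (hr : 8 ≤ r) :
    c0 ≤ (nevanlinnaCurrent curve r (theta (2 * BB)⁻¹)).re := by
  have hB := BB_pos
  have hb : 0 < (2 * BB)⁻¹ := by positivity
  have hpi := Real.pi_pos
  have hC := C1_pos
  have hr0 : 0 < r := by linarith
  have hup : nevanlinnaT curve r ≤ 4 * C1 * r :=
    nevT_le differentiable_curve hC.le fs_upper hr0.le
  have hlo : 0 < nevanlinnaT curve r := by
    rw [nevanlinnaT_eq differentiable_curve]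
    refine lt_of_lt_of_le ?_ (kernel_ge (continuous_fsDensity differentiable_curve)
      (fsDensity_nonneg _) (c := Real.exp (-2) / (Real.pi * BB ^ 2)) (by positivity)
      (fun ζ hζ => fs_lower hζ) hr)
    have := Real.exp_pos (-2)
    positivity
  have hnum : Real.exp (-2) * (r / 2) ≤
      ∫ ζ in Metric.ball (0 : ℂ) r, Real.log (r / ‖ζ‖) * uth (2 * BB)⁻¹ ζ :=
    kernel_ge (continuous_uth hb) (uth_nonneg _) (Real.exp_pos _).le (fun ζ hζ => uth_lower hζ) hr
  have e : nevanlinnaCurrent curve r (theta (2 * BB)⁻¹) =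
      (((nevanlinnaT curve r)⁻¹ *
        ∫ ζ in Metric.ball (0 : ℂ) r, Real.log (r / ‖ζ‖) * uth (2 * BB)⁻¹ ζ : ℝ) : ℂ) := by
    unfold nevanlinnaCurrent
    rw [Complex.ofReal_mul, Complex.ofReal_inv]
    congr 1
    rw [← integral_complex_ofReal]
    refine integral_congr_ae (Eventually.of_forall fun ζ => ?_)
    simp only
    rw [density_theta, Complex.ofReal_mul]
  rw [e, Complex.ofReal_re]
  have h1 : c0 = (4 * C1 * r)⁻¹ * (Real.exp (-2) * (r / 2)) := by
    unfold c0
    field_simp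
    norm_num
  rw [h1]
  have h2 : (4 * C1 * r)⁻¹ ≤ (nevanlinnaT curve r)⁻¹ := by
    gcongr
  have := Real.exp_pos (-2)
  gcongr

theorem exists_cluster : ∃ T : (Hom 3 → Alt2 3) → ℂ,
    IsClusterPoint curve T ∧ ¬ SupportedAtInfinity T := by
  classical
  obtain ⟨s, hs, T, hT⟩ := exists_limit differentiable_curve (fun n : ℕ => (n : ℝ) + 8)
  have hB := BB_pos
  have hb : 0 < (2 * BB)⁻¹ := by positivity
  have hTT : ∀ θ (h : IsForm11 θ), (if h : IsForm11 θ then T ⟨θ, mem_forms11.2 h⟩ else 0) =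
      T ⟨θ, mem_forms11.2 h⟩ := fun θ h => dif_pos h
  refine ⟨fun θ => if h : IsForm11 θ then T ⟨θ, mem_forms11.2 h⟩ else 0,
    ⟨fun n => (s n : ℝ) + 8, ?_, ?_⟩, ?_⟩
  · apply Tendsto.atTop_add _ tendsto_const_nhds
    exact tendsto_natCast_atTop_atTop.comp hs.tendsto_atTop
  · intro θ hθ
    simp only [hTT θ hθ]
    exact hT ⟨θ, mem_forms11.2 hθ⟩
  · intro hsupp
    have h1 := hT ⟨theta (2 * BB)⁻¹, theta_mem hb⟩
    have h2 := hsupp (theta (2 * BB)⁻¹) (√(2 * BB)⁻¹)⁻¹ (mem_forms11.1 (theta_mem hb))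
      (fun z hz => theta_supp hb hz)
    simp only [hTT _ (mem_forms11.1 (theta_mem hb))] at h2
    rw [h2] at h1
    have h3 := (Complex.continuous_re.tendsto 0).comp h1
    have h4 : c0 ≤ (0 : ℂ).re := by
      refine ge_of_tendsto h3 (Eventually.of_forall fun n => ?_)
      exact nc_lower (by have : (0 : ℝ) ≤ (s n : ℝ) := Nat.cast_nonneg _; linarith)
    have h5 := c0_pos
    rw [Complex.zero_re] at h4
    linarith

end Pool.Agent.H72R3.NC
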