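import Pool.Agent.H72R3.NC.Defs

/-!
# The entire functions of the example
-/

set_option autoImplicit false

namespace Pool.Agent.H72R3.NC

open Set Filter Topology MeasureTheory

/-- `(p_n, q_n)` with `p_n - √2 q_n = (3 - 2√2)^n`. -/
def pell : ℕ → ℕ × ℕ
  | 0 => (1, 0)
  | n + 1 => (3 * (pell n).1 + 4 * (pell n).2, 2 * (pell n).1 + 3 * (pell n).2)

/-- `3 - 2√2`. -/
noncomputable def dlt : ℝ := 3 - 2 * √2

lemma sqrt2_sq : √2 * √2 = (2 : ℝ) := Real.mul_self_sqrt (by norm_num)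

lemma sqrt2_gt : (1.4 : ℝ) < √2 := by
  have := sqrt2_sq
  have h := Real.sqrt_nonneg 2
  nlinarith

lemma sqrt2_lt : √2 < (1.5 : ℝ) := by
  have := sqrt2_sq
  have h := Real.sqrt_nonneg 2
  nlinarith

lemma dlt_pos : 0 < dlt := by
  unfold dlt; linarith [sqrt2_lt]

lemma dlt_lt : dlt < 1 / 4 := by
  have := sqrt2_sq
  have h := Real.sqrt_nonneg 2
  unfold dlt
  nlinarith

/-- exponents of `x` -/
def eP (n : ℕ) : ℕ := (pell (n + 1)).1
/-- exponents of `y` -/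
def eQ (n : ℕ) : ℕ := (pell (n + 1)).2
/-- total degrees -/
def eN (n : ℕ) : ℕ := eP n + eQ n

lemma pell_eq (n : ℕ) : ((pell n).1 : ℝ) - √2 * (pell n).2 = dlt ^ n := by
  induction n with
  | zero => simp [pell]
  | succ n ih =>
    rw [pow_succ, ← ih]
    simp only [pell]
    push_cast
    unfold dlt
    linear_combination (-(2 : ℝ) * (pell n).2) * sqrt2_sq

lemma eP_eq (n : ℕ) : (eP n : ℝ) - √2 * eQ n = dlt ^ (n + 1) := pell_eq (n + 1)

lemma pell_pos (n : ℕ) : 0 < (pell n).1 := by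
  induction n with
  | zero => simp [pell]
  | succ n ih => simp only [pell]; omega

lemma eN_strictMono : StrictMono eN := by
  apply strictMono_nat_of_lt_succ
  intro n
  have h := pell_pos (n + 1)
  have h2 : pell (n + 1 + 1) =
    (3 * (pell (n+1)).1 + 4 * (pell (n+1)).2, 2 * (pell (n+1)).1 + 3 * (pell (n+1)).2) := rfl
  unfold eN eP eQ
  rw [h2]
  simp only
  omega

lemma eN_inj : Function.Injective eN := eN_strictMono.injective

lemma le_eN (n : ℕ) : n ≤ eN n := eN_strictMono.le_apply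

lemma summable_N (R : ℝ) : Summable (fun n => R ^ (eN n) / (Nat.factorial (eN n) : ℝ)) :=
  (Real.summable_pow_div_factorial R).comp_injective eN_inj

/-- The series `∑ w_n x^{p_n} y^{q_n} / N_n!`. -/
noncomputable def ser (w : ℕ → ℝ) (z : ℂ × ℂ) : ℂ :=
  ∑' n, ((w n / (Nat.factorial (eN n) : ℝ) : ℝ) : ℂ) * (z.1 ^ eP n * z.2 ^ eQ n)

lemma coef_le {w : ℕ → ℝ} (hw : ∀ n, |w n| ≤ 1) (n : ℕ) :
    ‖((w n / (Nat.factorial (eN n) : ℝ) : ℝ) : ℂ)‖ ≤ 1 / (Nat.factorial (eN n) : ℝ) := by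
  rw [Complex.norm_real, norm_div, Real.norm_eq_abs, Real.norm_eq_abs, Nat.abs_cast]
  exact div_le_div_of_nonneg_right (hw n) (by positivity)

lemma term_le {w : ℕ → ℝ} (hw : ∀ n, |w n| ≤ 1) {R : ℝ} (hR : 1 ≤ R) {z : ℂ × ℂ} (h1 : ‖z.1‖ ≤ R)
    (h2 : ‖z.2‖ ≤ R) (n : ℕ) :
    ‖((w n / (Nat.factorial (eN n) : ℝ) : ℝ) : ℂ) * (z.1 ^ eP n * z.2 ^ eQ n)‖ ≤
      R ^ (eN n) / (Nat.factorial (eN n) : ℝ) := by
  rw [norm_mul, norm_mul, norm_pow, norm_pow]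
  have h3 : ‖z.1‖ ^ eP n * ‖z.2‖ ^ eQ n ≤ R ^ eN n := by
    unfold eN
    rw [pow_add]
    gcongr
  calc _ ≤ 1 / (Nat.factorial (eN n) : ℝ) * R ^ eN n := by
        gcongr
        exact coef_le hw n
    _ = _ := by ring

lemma summable_ser {w : ℕ → ℝ} (hw : ∀ n, |w n| ≤ 1) (z : ℂ × ℂ) :
    Summable fun n => ((w n / (Nat.factorial (eN n) : ℝ) : ℝ) : ℂ) * (z.1 ^ eP n * z.2 ^ eQ n) := by
  set R := max 1 (max ‖z.1‖ ‖z.2‖)
  exact Summable.of_norm_bounded (summable_N R)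
    (term_le hw (le_max_left _ _) ((le_max_left _ _).trans (le_max_right _ _))
      ((le_max_right _ _).trans (le_max_right _ _)))

lemma differentiable_ser {w : ℕ → ℝ} (hw : ∀ n, |w n| ≤ 1) : Differentiable ℂ (ser w) := by
  intro z
  set R : ℝ := ‖z‖ + 1 with hR
  have hR1 : 1 ≤ R := by rw [hR]; linarith [norm_nonneg z]
  have hz : z ∈ Metric.ball (0 : ℂ × ℂ) R := by
    rw [mem_ball_zero_iff, hR]; linarith
  set f : ℕ → ℂ × ℂ → ℂ := fun n z =>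
    ((w n / (Nat.factorial (eN n) : ℝ) : ℝ) : ℂ) * (z.1 ^ eP n * z.2 ^ eQ n) with hf
  set f' : ℕ → ℂ × ℂ → (ℂ × ℂ →L[ℂ] ℂ) := fun n z =>
    ((w n / (Nat.factorial (eN n) : ℝ) : ℝ) : ℂ) •
      (z.1 ^ eP n • (((eQ n : ℂ) * z.2 ^ (eQ n - 1)) • ContinuousLinearMap.snd ℂ ℂ ℂ)
      + z.2 ^ eQ n • (((eP n : ℂ) * z.1 ^ (eP n - 1)) • ContinuousLinearMap.fst ℂ ℂ ℂ)) with hf'
  have hd : ∀ n z, HasFDerivAt (f n) (f' n z) z := by
    intro n z
    have h1 : HasFDerivAt (fun z : ℂ × ℂ => z.1 ^ eP n)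
        (((eP n : ℂ) * z.1 ^ (eP n - 1)) • ContinuousLinearMap.fst ℂ ℂ ℂ) z := by
      have := (hasDerivAt_pow (eP n) z.1).hasFDerivAt.comp z (hasFDerivAt_fst (𝕜 := ℂ) (p := z))
      refine this.congr_fderiv ?_
      ext <;> simp
    have h2 : HasFDerivAt (fun z : ℂ × ℂ => z.2 ^ eQ n)
        (((eQ n : ℂ) * z.2 ^ (eQ n - 1)) • ContinuousLinearMap.snd ℂ ℂ ℂ) z := by
      have := (hasDerivAt_pow (eQ n) z.2).hasFDerivAt.comp z (hasFDerivAt_snd (𝕜 := ℂ) (p := z))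
      refine this.congr_fderiv ?_
      ext <;> simp
    exact (h1.mul h2).const_mul _
  have hb : ∀ n, ∀ z ∈ Metric.ball (0 : ℂ × ℂ) R, ‖f' n z‖ ≤
      (2 * R) ^ (eN n) / (Nat.factorial (eN n) : ℝ) := by
    intro n z hz
    rw [mem_ball_zero_iff] at hz
    have hz1 : ‖z.1‖ ≤ R := (norm_fst_le z).trans hz.le
    have hz2 : ‖z.2‖ ≤ R := (norm_snd_le z).trans hz.le
    have e1 : ‖ContinuousLinearMap.fst ℂ ℂ ℂ‖ ≤ 1 := ContinuousLinearMap.norm_fst_le ℂ ℂ ℂ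
    have e2 : ‖ContinuousLinearMap.snd ℂ ℂ ℂ‖ ≤ 1 := ContinuousLinearMap.norm_snd_le ℂ ℂ ℂ
    have hRp : ∀ m k : ℕ, m ≤ k → R ^ m ≤ R ^ k := fun m k h => pow_le_pow_right₀ hR1 h
    have t1 : ‖z.1 ^ eP n • (((eQ n : ℂ) * z.2 ^ (eQ n - 1)) • ContinuousLinearMap.snd ℂ ℂ ℂ)‖ ≤
        eQ n * R ^ eN n := by
      rw [norm_smul, norm_smul, norm_mul, norm_pow, norm_pow, Complex.norm_natCast]
      calc ‖z.1‖ ^ eP n * (eQ n * ‖z.2‖ ^ (eQ n - 1) * ‖ContinuousLinearMap.snd ℂ ℂ ℂ‖)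
          ≤ R ^ eP n * (eQ n * R ^ (eQ n - 1) * 1) := by gcongr
        _ = eQ n * (R ^ (eP n + (eQ n - 1))) := by rw [pow_add]; ring
        _ ≤ eQ n * R ^ eN n := by
            gcongr
            unfold eN; omega
    have t2 : ‖z.2 ^ eQ n • (((eP n : ℂ) * z.1 ^ (eP n - 1)) • ContinuousLinearMap.fst ℂ ℂ ℂ)‖ ≤
        eP n * R ^ eN n := by
      rw [norm_smul, norm_smul, norm_mul, norm_pow, norm_pow, Complex.norm_natCast]
      calc ‖z.2‖ ^ eQ n * (eP n * ‖z.1‖ ^ (eP n - 1) * ‖ContinuousLinearMap.fst ℂ ℂ ℂ‖)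
          ≤ R ^ eQ n * (eP n * R ^ (eP n - 1) * 1) := by gcongr
        _ = eP n * (R ^ (eQ n + (eP n - 1))) := by rw [pow_add]; ring
        _ ≤ eP n * R ^ eN n := by
            gcongr
            unfold eN; omega
    have hN : (eN n : ℝ) ≤ 2 ^ eN n := by exact_mod_cast (Nat.lt_two_pow_self).le
    calc ‖f' n z‖ ≤ 1 / (Nat.factorial (eN n) : ℝ) * (eQ n * R ^ eN n + eP n * R ^ eN n) := by
          rw [hf']
          simp only
          rw [norm_smul]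
          gcongr
          · exact coef_le hw n
          · exact (norm_add_le _ _).trans (add_le_add t1 t2)
      _ = (eN n : ℝ) * R ^ eN n / (Nat.factorial (eN n) : ℝ) := by
          unfold eN; push_cast; ring
      _ ≤ 2 ^ eN n * R ^ eN n / (Nat.factorial (eN n) : ℝ) := by gcongr
      _ = _ := by rw [mul_pow]
  have h := hasFDerivAt_tsum_of_isPreconnected (summable_N (2 * R)) Metric.isOpen_ball
    (convex_ball (0 : ℂ × ℂ) R).isPreconnected (fun n z _ => hd n z) hb hz (summable_ser hw z) hz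
  exact h.differentiableAt

end Pool.Agent.H72R3.NC
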