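import Pool.Agent.H72R3.NC.Bounds

/-!
# A test form with compact support in the affine space
-/

set_option autoImplicit false

namespace Pool.Agent.H72R3.NC

open Set Filter Topology MeasureTheory
open scoped ContDiff ENNReal

/-- real linear coordinate -/
noncomputable def pr (i : Fin 4) : Hom 3 →L[ℝ] ℂ := PiLp.proj 2 (fun _ => ℂ) i

lemma pr_apply (i : Fin 4) (v : Hom 3) : pr i v = v i := rfl

/-- the differential of the affine coordinate `z 2 / z 0` -/
noncomputable def av (z : Hom 3) : Hom 3 →L[ℝ] ℂ :=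
  (ContinuousLinearMap.mul ℝ ℂ (z 0)⁻¹).comp (pr 2) -
    (ContinuousLinearMap.mul ℝ ℂ (z 2 * ((z 0)⁻¹ * (z 0)⁻¹))).comp (pr 0)

lemma av_apply (z v : Hom 3) : av z v = (z 0)⁻¹ * v 2 - z 2 * ((z 0)⁻¹ * (z 0)⁻¹) * v 0 := rfl

/-- the two form -/
noncomputable def Wv (z : Hom 3) : Hom 3 [⋀^Fin 2]→L[ℝ] ℂ :=
  ContinuousAlternatingMap.alternatizeUncurryFinCLM ℝ (Hom 3) ℂ
    ((Complex.reCLM.comp (av z)).smulRight
      (ContinuousAlternatingMap.ofSubsingletonLIE (𝕜 := ℝ) (E := Hom 3) (F := ℂ) (0 : Fin 1)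
        (Complex.ofRealCLM.comp (Complex.imCLM.comp (av z)))))

lemma Wv_apply (z v w : Hom 3) : Wv z ![v, w] =
    (((av z v).re * (av z w).im - (av z w).re * (av z v).im : ℝ) : ℂ) := by
  unfold Wv
  rw [ContinuousAlternatingMap.alternatizeUncurryFinCLM_apply,
    ContinuousAlternatingMap.alternatizeUncurryFin_apply, Fin.sum_univ_two]
  simp [Fin.removeNth, ContinuousAlternatingMap.ofSubsingletonLIE]
  ring

lemma zs (W : Hom 3 [⋀^Fin 2]→L[ℝ] ℂ) : (0 : ℝ) • W = 0 := by
  ext v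
  show (0 : ℝ) • W v = 0
  exact zero_smul ℝ (W v)

/-- cut-off -/
noncomputable def chi (b : ℝ) (z : Hom 3) : ℝ :=
  Real.smoothTransition (‖z 0‖ ^ 2 / (b * ‖z‖ ^ 2) - 1)

/-- the test form -/
noncomputable def theta (b : ℝ) (z : Hom 3) : Hom 3 [⋀^Fin 2]→L[ℝ] ℂ := chi b z • Wv z

lemma contDiffAt_coord (z : Hom 3) (i : Fin 4) : ContDiffAt ℝ ∞ (fun z : Hom 3 => z i) z :=
  (pr i).contDiff.contDiffAt

lemma contDiffAt_av {z : Hom 3} (hz : z 0 ≠ 0) : ContDiffAt ℝ ∞ av z := by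
  have h0 : ContDiffAt ℝ ∞ (fun z : Hom 3 => (z 0)⁻¹) z := (contDiffAt_coord z 0).inv hz
  have h2 := contDiffAt_coord z 2
  have h3 : ContDiffAt ℝ ∞ (fun z : Hom 3 => z 2 * ((z 0)⁻¹ * (z 0)⁻¹)) z :=
    h2.mul (h0.mul h0)
  have m1 := (ContinuousLinearMap.mul ℝ ℂ).contDiff (n := ∞).contDiffAt.comp z h0
  have m2 := (ContinuousLinearMap.mul ℝ ℂ).contDiff (n := ∞).contDiffAt.comp z h3
  exact (m1.clm_comp contDiffAt_const).sub (m2.clm_comp contDiffAt_const)

lemma contDiffAt_Wv {z : Hom 3} (hz : z 0 ≠ 0) : ContDiffAt ℝ ∞ Wv z := by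
  have h := contDiffAt_av hz
  have h1 : ContDiffAt ℝ ∞ (fun z => Complex.reCLM.comp (av z)) z :=
    contDiffAt_const.clm_comp h
  have h2 : ContDiffAt ℝ ∞ (fun z => Complex.ofRealCLM.comp (Complex.imCLM.comp (av z))) z :=
    contDiffAt_const.clm_comp (contDiffAt_const.clm_comp h)
  have h3 := (ContinuousAlternatingMap.ofSubsingletonLIE (𝕜 := ℝ) (E := Hom 3) (F := ℂ)
    (0 : Fin 1)).contDiff (n := ∞).contDiffAt.comp z h2
  have h4 := h1.smulRight h3
  exact (ContinuousAlternatingMap.alternatizeUncurryFinCLM ℝ (Hom 3) ℂ).contDiff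
    (n := ∞).contDiffAt.comp z h4

lemma contDiffAt_chi {b : ℝ} (hb : 0 < b) {z : Hom 3} (hz : z ≠ 0) :
    ContDiffAt ℝ ∞ (chi b) z := by
  have h1 : ContDiffAt ℝ ∞ (fun z : Hom 3 => ‖z 0‖ ^ 2) z := (contDiffAt_coord z 0).norm_sq ℂ
  have h2 : ContDiffAt ℝ ∞ (fun z : Hom 3 => b * ‖z‖ ^ 2) z :=
    contDiffAt_const.mul (contDiffAt_id.norm_sq ℂ)
  have h3 : b * ‖z‖ ^ 2 ≠ 0 := by
    have := norm_pos_iff.2 hz
    positivity
  exact Real.smoothTransition.contDiffAt.comp z ((h1.div h2 h3).sub contDiffAt_const)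

lemma chi_zero {b : ℝ} (hb : 0 < b) {z : Hom 3} (h : ‖z 0‖ ^ 2 ≤ b * ‖z‖ ^ 2) : chi b z = 0 := by
  apply Real.smoothTransition.zero_of_nonpos
  rw [sub_nonpos]
  apply div_le_one_of_le₀ h
  positivity

lemma chi_one {b : ℝ} (hb : 0 < b) {z : Hom 3} (hz : z ≠ 0) (h : 2 * b * ‖z‖ ^ 2 ≤ ‖z 0‖ ^ 2) :
    chi b z = 1 := by
  apply Real.smoothTransition.one_of_one_le
  have := norm_pos_iff.2 hz
  rw [le_sub_iff_add_le, le_div_iff₀ (by positivity)]
  linarith

lemma chi_smul (b : ℝ) (z : Hom 3) {c : ℂ} (hc : c ≠ 0) : chi b (c • z) = chi b z := by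
  unfold chi
  have : (c • z) 0 = c * z 0 := rfl
  rw [this, norm_mul, norm_smul]
  have hc' : ‖c‖ ≠ 0 := norm_ne_zero_iff.2 hc
  congr 2
  rw [mul_pow, mul_pow, mul_left_comm, mul_div_mul_left _ _ (pow_ne_zero 2 hc')]

lemma theta_mem {b : ℝ} (hb : 0 < b) : theta b ∈ forms11 3 := by
  refine ⟨?_, ?_, ?_, ?_, ?_⟩
  · unfold theta
    rw [chi_zero hb (by simp)]
    exact zs _
  · intro z hz
    rw [mem_compl_iff, mem_singleton_iff] at hz
    refine ContDiffAt.contDiffWithinAt ?_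
    by_cases h0 : z 0 = 0
    · have : theta b =ᶠ[𝓝 z] fun _ => 0 := by
        have hc1 : Continuous fun z : Hom 3 => ‖z 0‖ ^ 2 := (pr 0).continuous.norm.pow 2
        have hc2 : Continuous fun z : Hom 3 => b * ‖z‖ ^ 2 := continuous_const.mul (continuous_norm.pow 2)
        have hlt : ‖z 0‖ ^ 2 < b * ‖z‖ ^ 2 := by
          rw [h0]
          have := norm_pos_iff.2 hz
          simp
          positivity
        filter_upwards [hc1.continuousAt.eventually_lt hc2.continuousAt hlt] with y hy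
        unfold theta
        rw [chi_zero hb hy.le]
        exact zs _
      exact contDiffAt_const.congr_of_eventuallyEq this
    · exact (contDiffAt_chi hb hz).smul (contDiffAt_Wv h0)
  · intro z _ v w
    have e : ∀ v : Hom 3, av z (Complex.I • v) = Complex.I * av z v := by
      intro v
      rw [av_apply, av_apply]
      have e1 : (Complex.I • v) 2 = Complex.I * v 2 := rfl
      have e2 : (Complex.I • v) 0 = Complex.I * v 0 := rfl
      rw [e1, e2]
      ring
    show chi b z • Wv z ![_, _] = chi b z • Wv z ![_, _]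
    rw [Wv_apply, Wv_apply, e, e]
    congr 2
    simp
    ring
  · intro z _ c w
    show chi b z • Wv z ![_, _] = 0
    by_cases h0 : z 0 = 0
    · rw [chi_zero hb (by rw [h0]; simp; positivity), zero_smul]
    · have e : av z (c • z) = 0 := by
        rw [av_apply]
        have e1 : (c • z) 2 = c * z 2 := rfl
        have e2 : (c • z) 0 = c * z 0 := rfl
        rw [e1, e2]
        field_simp
        ring
      rw [Wv_apply, e]
      simp
  · intro z _ c hc v w
    have e : ∀ v : Hom 3, av (c • z) (c • v) = av z v := by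
      intro v
      rw [av_apply, av_apply]
      have e1 : (c • v) 2 = c * v 2 := rfl
      have e2 : (c • v) 0 = c * v 0 := rfl
      have e3 : (c • z) 2 = c * z 2 := rfl
      have e4 : (c • z) 0 = c * z 0 := rfl
      rw [e1, e2, e3, e4, mul_inv]
      field_simp
    show chi b (c • z) • Wv (c • z) ![_, _] = chi b z • Wv z ![_, _]
    rw [Wv_apply, Wv_apply, e, e, chi_smul b z hc]

lemma theta_supp {b : ℝ} (hb : 0 < b) {z : Hom 3} (h : (√b)⁻¹ * ‖z 0‖ < ‖z‖) :
    theta b z = 0 := by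
  have hs := Real.sqrt_pos.2 hb
  have h1 : ‖z 0‖ ≤ √b * ‖z‖ := by
    rw [inv_mul_lt_iff₀ hs] at h
    exact h.le
  have h2 : ‖z 0‖ ^ 2 ≤ b * ‖z‖ ^ 2 := by
    calc ‖z 0‖ ^ 2 ≤ (√b * ‖z‖) ^ 2 := by gcongr
      _ = b * ‖z‖ ^ 2 := by rw [mul_pow, Real.sq_sqrt hb.le]
  unfold theta
  rw [chi_zero hb h2]
  exact zs _

/-- the density of the test form along the leaf -/
noncomputable def uth (b : ℝ) (t : ℂ) : ℝ := chi b (Pv t) * Real.exp t.re ^ 2

lemma density_theta (b : ℝ) (t : ℂ) : density (theta b) curve t = (uth b t : ℂ) := by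
  rw [density_def, hom_curve, deriv_hom_curve]
  show chi b (Pv t) • Wv (Pv t) ![_, _] = _
  rw [Wv_apply]
  have e1 : av (Pv t) (Dv t) = Complex.exp t := by
    rw [av_apply]
    have f0 : Pv t 0 = 1 := rfl
    have f1 : Dv t 0 = 0 := rfl
    have f2 : Dv t 2 = Complex.exp t := rfl
    rw [f0, f1, f2]
    simp
  have e2 : av (Pv t) (Complex.I • Dv t) = Complex.I * Complex.exp t := by
    rw [av_apply]
    have f0 : Pv t 0 = 1 := rfl
    have f1 : (Complex.I • Dv t) 0 = Complex.I * 0 := rfl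
    have f2 : (Complex.I • Dv t) 2 = Complex.I * Complex.exp t := rfl
    rw [f0, f1, f2]
    simp
  rw [e1, e2, Complex.real_smul, ← Complex.ofReal_mul]
  unfold uth
  congr 2
  have h : Real.exp t.re ^ 2 = (Complex.exp t).re * (Complex.exp t).re +
      (Complex.exp t).im * (Complex.exp t).im := by
    rw [← Complex.normSq_apply, Complex.normSq_eq_norm_sq, norm_exp1]
  rw [h]
  simp only [Complex.mul_re, Complex.mul_im, Complex.I_re, Complex.I_im]
  ring

lemma uth_nonneg (b : ℝ) (t : ℂ) : 0 ≤ uth b t :=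
  mul_nonneg (Real.smoothTransition.nonneg _) (by positivity)

lemma continuous_Pv : Continuous Pv := by
  have h := diff_hom (k := 3) (φ := curve) (fun t => (hasDerivAt_curve t).differentiableAt)
  have : (fun t => hom (curve t)) = Pv := by
    ext1 t
    exact hom_curve t
  rw [this] at h
  exact h.continuous

lemma Pv_ne (t : ℂ) : Pv t ≠ 0 := by rw [← hom_curve]; exact hom_ne _

lemma continuous_uth {b : ℝ} (hb : 0 < b) : Continuous (uth b) := by
  have h1 : Continuous fun t => chi b (Pv t) := by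
    rw [continuous_iff_continuousAt]
    intro t
    exact (contDiffAt_chi hb (Pv_ne t)).continuousAt.comp continuous_Pv.continuousAt
  exact h1.mul ((Real.continuous_exp.comp Complex.continuous_re).pow 2)

lemma uth_lower {t : ℂ} (ht : |t.re| ≤ 1) : Real.exp (-2) ≤ uth (2 * BB)⁻¹ t := by
  have hB := BB_pos
  unfold uth
  rw [chi_one (by positivity) (Pv_ne t), one_mul]
  · rw [← Real.exp_nat_mul]
    apply Real.exp_le_exp.2
    have := (abs_le.1 ht).1
    push_cast
    linarith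
  · have h := norm_Pv_le ht
    have h0 : ‖Pv t 0‖ = 1 := by
      show ‖(1 : ℂ)‖ = 1
      simp
    rw [h0]
    have e : 2 * (2 * BB)⁻¹ * ‖Pv t‖ ^ 2 = ‖Pv t‖ ^ 2 / BB := by
      field_simp
    rw [e, one_pow]
    exact div_le_one_of_le₀ h hB.le

end Pool.Agent.H72R3.NC
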